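import Pool.Agent.TH688.MisExact

set_option autoImplicit false

/-!
# If `P = NP`, longest solutions can be found in polynomial time
-/

namespace Pool.Agent.TH688.Mis

open Pool.Agent.NPC

/-- If `P = NP`, then a longest list which passes a polynomial-time test can be found in
polynomial time, if the lists which pass the test have polynomial size. -/
theorem exists_best {α β : Type} [TEnc α] [TDec α] [TEnc β] [TDec β]
    (H : ∀ L : Set (List Bool), InNP L → InP L) {chk : α × List β → Bool} (hchk : Poly chk)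
    {N : α → ℕ} (hN : UPoly N) (hlen : ∀ a S, chk (a, S) = true → S.length ≤ N a)
    (p : Polynomial ℕ) (hsz : ∀ a S, chk (a, S) = true → sz S ≤ p.eval (sz a)) :
    ∃ F : α → List β, Poly F ∧ ∀ a, (∃ S, chk (a, S) = true) → chk (a, F a) = true ∧
      ∀ S, chk (a, S) = true → S.length ≤ (F a).length := by
  let R : (α × ℕ) × List β → Bool := fun x =>
    decide (x.2.length = x.1.2) && chk (x.1.1, x.2)
  have hR : Poly R := by
    have h1 : Poly (fun x : (α × ℕ) × List β => chk (x.1.1, x.2)) :=
      hchk.comp (Poly.pair (Poly.fst (Poly.fst Poly.id)) (Poly.snd Poly.id))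
    exact Poly.and (Poly.decide_eq (Poly.length (Poly.snd Poly.id))
      (Poly.snd (Poly.fst Poly.id))) h1
  have hRi : ∀ a k S, R ((a, k), S) = true ↔ S.length = k ∧ chk (a, S) = true := by
    intro a k S
    simp only [R, Bool.and_eq_true, decide_eq_true_eq]
  obtain ⟨F, hF, hFs⟩ := R671.search_of_collapse hR p (by
      rintro ⟨a, k⟩ S hS
      rw [hRi] at hS
      exact (hsz a S hS.2).trans (eval_mono p (by rw [sz_pair]; omega))) H
  -- the candidates
  let cand : α → ℕ → List β := fun a k => (unbits (List β) (F (bits (a, k)))).getD []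
  have hcand : Poly (fun x : α × ℕ => cand x.1 x.2) := by
    refine NPC.Poly.optGetD (o := fun x : α × ℕ =>
      unbits (List β) (F (bits (x.1, x.2)))) (g := fun _ => []) ?_ (NPC.Poly.const _)
    exact poly_unbits.comp ((Pool.Agent.H622R2.poly_of_polyTime hF).comp
      (R671.poly_bits.comp (Poly.pair (Poly.fst Poly.id) (Poly.snd Poly.id))))
  let L : α → List (List β) := fun a =>
    ((List.range (N a + 1)).map fun k => cand a k).filter fun S => chk (a, S)
  have hL : Poly L := by
    refine Poly.filter (p := fun a S => chk (a, S)) ?_ hchk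
    exact NPC.Poly.map (F := fun A k => cand A k) (UPoly.add hN (UPoly.const 1)).range hcand
  have hmem : ∀ a S, chk (a, S) = true → ∃ T ∈ L a, T.length = S.length := by
    intro a S hS
    obtain ⟨T, h1, h2⟩ := hFs (a, S.length) ⟨S, (hRi _ _ _).2 ⟨rfl, hS⟩⟩
    rw [hRi] at h1
    refine ⟨T, ?_, h1.1⟩
    simp only [L, List.mem_filter, List.mem_map, List.mem_range]
    refine ⟨⟨S.length, ?_, ?_⟩, h1.2⟩
    · have := hlen a S hS
      omega
    · simp only [cand]
      rw [h2, unbits_bits, Option.getD_some]
  refine ⟨fun a => best (L a), poly_best hL, fun a ⟨S₀, hS₀⟩ => ?_⟩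
  obtain ⟨T₀, h0, _⟩ := hmem a S₀ hS₀
  obtain ⟨h1, h2⟩ := best_spec (List.ne_nil_of_mem h0)
  refine ⟨(List.mem_filter.1 h1).2, fun S hS => ?_⟩
  obtain ⟨T, h3, h4⟩ := hmem a S hS
  rw [← h4]
  exact h2 T h3

end Pool.Agent.TH688.Mis
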