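import Pool.Agent.H243R3.PCP.Gap
import Pool.Agent.H688R2.RInd.Hard
import Pool.Agent.H671R2.Search

set_option autoImplicit false

/-!
# Maximum Independent Set cannot be approximated within any constant factor unless `P = NP`
-/

namespace Pool.Agent.TH688.Mis

open Pool.Agent.NPC Pool.Agent.H688R2.RInd

/-- the graph on `0, …, N - 1` with adjacency test `t` -/
def mkG (N : ℕ) (t : ℕ → ℕ → Bool) : List (List ℕ) :=
  (List.range N).map fun a => (List.range N).filter fun b => t a b

lemma mkG_length (N : ℕ) (t : ℕ → ℕ → Bool) : (mkG N t).length = N := by simp [mkG]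

lemma mkG_adj (N : ℕ) (t : ℕ → ℕ → Bool) (a b : ℕ) :
    (gr (mkG N t)).Adj a b ↔ a ≠ b ∧ a < N ∧ b < N ∧ (t a b = true ∨ t b a = true) := by
  have key : ∀ a b : ℕ, a < N → (b ∈ (mkG N t).getD a [] ↔ b < N ∧ t a b = true) := by
    intro a b ha
    rw [List.getD_eq_getElem?_getD, mkG, List.getElem?_map, List.getElem?_range ha]
    simp
  simp only [gr, mkG_length]
  constructor
  · rintro ⟨h1, h2, h3, h4⟩
    refine ⟨h1, h2, h3, ?_⟩
    rcases h4 with h4 | h4
    · exact Or.inl ((key a b h2).1 h4).2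
    · exact Or.inr ((key b a h3).1 h4).2
  · rintro ⟨h1, h2, h3, h4⟩
    refine ⟨h1, h2, h3, ?_⟩
    rcases h4 with h4 | h4
    · exact Or.inl ((key a b h2).2 ⟨h3, h4⟩)
    · exact Or.inr ((key b a h3).2 ⟨h2, h4⟩)

lemma indep_iff (A : List (List ℕ)) (S : List ℕ) : Indep A S ↔
    S.Nodup ∧ (∀ v ∈ S, v < A.length) ∧ ∀ u ∈ S, ∀ v ∈ S, ¬ (gr A).Adj u v := by
  constructor
  · rintro ⟨h1, h2⟩
    refine ⟨h2.imp fun h => h.1, h1, ?_⟩
    have h3 : S.Pairwise fun u v => ¬ (gr A).Adj u v := h2.imp fun h => h.2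
    intro u hu v hv huv
    haveI : Std.Symm (fun u v => ¬ (gr A).Adj u v) := ⟨fun x y h h' => h h'.symm⟩
    have h4 := List.Pairwise.forall_of_forall (R := fun u v => ¬ (gr A).Adj u v)
      (fun x _ h => h.ne rfl) h3
    exact h4 hu hv huv
  · rintro ⟨h1, h2, h3⟩
    refine ⟨h2, ?_⟩
    rw [List.pairwise_iff_getElem]
    intro i j hi hj hij
    refine ⟨fun h => ?_, h3 _ (List.getElem_mem _) _ (List.getElem_mem _)⟩
    have := (List.Nodup.getElem_inj_iff h1).1 h
    omega

/-! ### The product of a graph with itself -/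

/-- The square: pairs, adjacent if they are adjacent in some coordinate. -/
def sq (A : List (List ℕ)) : List (List ℕ) :=
  mkG (A.length * A.length) fun a b =>
    adj A (a / A.length) (b / A.length) || adj A (a % A.length) (b % A.length)

lemma adj_comm' (A : List (List ℕ)) (u v : ℕ) : adj A u v = adj A v u := by
  rw [Bool.eq_iff_iff, adj_iff, adj_iff]
  exact ⟨fun h => h.symm, fun h => h.symm⟩

lemma sq_adj (A : List (List ℕ)) (a b : ℕ) : (gr (sq A)).Adj a b ↔
    a < A.length * A.length ∧ b < A.length * A.length ∧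
      ((gr A).Adj (a / A.length) (b / A.length) ∨ (gr A).Adj (a % A.length) (b % A.length)) := by
  unfold sq
  rw [mkG_adj]
  simp only [Bool.or_eq_true, adj_iff]
  constructor
  · rintro ⟨_, h2, h3, (h4 | h4) | (h4 | h4)⟩
    · exact ⟨h2, h3, Or.inl h4⟩
    · exact ⟨h2, h3, Or.inr h4⟩
    · exact ⟨h2, h3, Or.inl h4.symm⟩
    · exact ⟨h2, h3, Or.inr h4.symm⟩
  · rintro ⟨h2, h3, h4⟩
    refine ⟨?_, h2, h3, Or.inl h4⟩
    rintro rfl
    rcases h4 with h4 | h4 <;> exact h4.ne rfl

lemma sq_length (A : List (List ℕ)) : (sq A).length = A.length * A.length := mkG_length _ _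

lemma sq_ge {A : List (List ℕ)} {S : List ℕ} (hS : Indep A S) :
    ∃ S', Indep (sq A) S' ∧ S'.length = S.length * S.length := by
  rw [indep_iff] at hS
  obtain ⟨h1, h2, h3⟩ := hS
  refine ⟨(S ×ˢ S).map fun p => p.1 * A.length + p.2, ?_, by
    rw [List.length_map]; exact List.length_product _ _⟩
  have hlt : ∀ p ∈ S ×ˢ S, p.2 < A.length := fun p hp => h2 _ (List.mem_product.1 hp).2
  have hdiv : ∀ p ∈ S ×ˢ S, (p.1 * A.length + p.2) / A.length = p.1 := fun p hp =>
    code_div (hlt p hp)
  have hmod : ∀ p ∈ S ×ˢ S, (p.1 * A.length + p.2) % A.length = p.2 := fun p hp =>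
    code_mod (hlt p hp)
  rw [indep_iff]
  refine ⟨?_, ?_, ?_⟩
  · refine List.Nodup.map_on ?_ (List.Nodup.product h1 h1)
    intro p hp q hq hpq
    refine Prod.ext ?_ ?_
    · rw [← hdiv p hp, hpq, hdiv q hq]
    · rw [← hmod p hp, hpq, hmod q hq]
  · intro v hv
    obtain ⟨p, hp, rfl⟩ := List.mem_map.1 hv
    rw [sq_length]
    exact code_lt (h2 _ (List.mem_product.1 hp).1) (hlt p hp)
  · intro u hu v hv huv
    obtain ⟨p, hp, rfl⟩ := List.mem_map.1 hu
    obtain ⟨q, hq, rfl⟩ := List.mem_map.1 hv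
    rw [sq_adj, hdiv p hp, hdiv q hq, hmod p hp, hmod q hq] at huv
    rcases huv.2.2 with h4 | h4
    · exact h3 _ (List.mem_product.1 hp).1 _ (List.mem_product.1 hq).1 h4
    · exact h3 _ (List.mem_product.1 hp).2 _ (List.mem_product.1 hq).2 h4

lemma sq_le {A : List (List ℕ)} {S : List ℕ} (hS : Indep (sq A) S) :
    ∃ S₁ S₂, Indep A S₁ ∧ Indep A S₂ ∧ S.length ≤ S₁.length * S₂.length := by
  classical
  rw [indep_iff] at hS
  obtain ⟨h1, h2, h3⟩ := hS
  have hpos : ∀ v ∈ S, 0 < A.length := by
    intro v hv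
    have := h2 v hv
    rw [sq_length] at this
    by_contra hc
    have h0 : A.length = 0 := by omega
    rw [h0] at this
    omega
  have hd : ∀ v ∈ S, v / A.length < A.length := by
    intro v hv
    have := h2 v hv
    rw [sq_length] at this
    exact (Nat.div_lt_iff_lt_mul (hpos v hv)).2 this
  refine ⟨(S.map (· / A.length)).dedup, (S.map (· % A.length)).dedup, ?_, ?_, ?_⟩
  · rw [indep_iff]
    refine ⟨List.nodup_dedup _, ?_, ?_⟩
    · intro v hv
      rw [List.mem_dedup, List.mem_map] at hv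
      obtain ⟨x, hx, rfl⟩ := hv
      exact hd x hx
    · intro u hu v hv huv
      rw [List.mem_dedup, List.mem_map] at hu hv
      obtain ⟨x, hx, rfl⟩ := hu
      obtain ⟨y, hy, rfl⟩ := hv
      refine h3 x hx y hy ((sq_adj A x y).2 ⟨?_, ?_, Or.inl huv⟩)
      · rw [← sq_length]; exact h2 x hx
      · rw [← sq_length]; exact h2 y hy
  · rw [indep_iff]
    refine ⟨List.nodup_dedup _, ?_, ?_⟩
    · intro v hv
      rw [List.mem_dedup, List.mem_map] at hv
      obtain ⟨x, hx, rfl⟩ := hv
      exact Nat.mod_lt _ (hpos x hx)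
    · intro u hu v hv huv
      rw [List.mem_dedup, List.mem_map] at hu hv
      obtain ⟨x, hx, rfl⟩ := hu
      obtain ⟨y, hy, rfl⟩ := hv
      refine h3 x hx y hy ((sq_adj A x y).2 ⟨?_, ?_, Or.inr huv⟩)
      · rw [← sq_length]; exact h2 x hx
      · rw [← sq_length]; exact h2 y hy
  · rw [← List.length_product]
    have h4 : (S.map fun v => (v / A.length, v % A.length)).Nodup := by
      refine List.Nodup.map_on ?_ h1
      intro x _ y _ hxy
      rw [Prod.mk.injEq] at hxy
      rw [← Nat.div_add_mod x A.length, hxy.1, hxy.2, Nat.div_add_mod]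
    have h5 := (h4.subperm (l₂ := (S.map (· / A.length)).dedup ×ˢ
      (S.map (· % A.length)).dedup) ?_).length_le
    · rw [List.length_map] at h5
      exact h5
    · intro p hp
      obtain ⟨x, hx, rfl⟩ := List.mem_map.1 hp
      rw [List.mem_product, List.mem_dedup, List.mem_dedup]
      exact ⟨List.mem_map_of_mem hx, List.mem_map_of_mem hx⟩

lemma iter_ge {A : List (List ℕ)} {S : List ℕ} (hS : Indep A S) (t : ℕ) :
    ∃ S', Indep (sq^[t] A) S' ∧ S'.length = S.length ^ 2 ^ t := by
  induction t with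
  | zero => exact ⟨S, hS, by simp⟩
  | succ t ih =>
    obtain ⟨S', h1, h2⟩ := ih
    obtain ⟨S'', h3, h4⟩ := sq_ge h1
    refine ⟨S'', ?_, ?_⟩
    · rw [Function.iterate_succ_apply']; exact h3
    · rw [h4, h2, ← pow_add, pow_succ]
      congr 1
      omega

lemma iter_le {A : List (List ℕ)} {M : ℝ} (hM : 0 ≤ M)
    (h : ∀ S, Indep A S → (S.length : ℝ) ≤ M) (t : ℕ) :
    ∀ S, Indep (sq^[t] A) S → (S.length : ℝ) ≤ M ^ 2 ^ t := by
  induction t with
  | zero => simpa using h
  | succ t ih =>
    intro S hS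
    rw [Function.iterate_succ_apply'] at hS
    obtain ⟨S₁, S₂, h1, h2, h3⟩ := sq_le hS
    have h4 := ih S₁ h1
    have h5 := ih S₂ h2
    calc (S.length : ℝ) ≤ ((S₁.length * S₂.length : ℕ) : ℝ) := by exact_mod_cast h3
      _ = (S₁.length : ℝ) * S₂.length := by push_cast; ring
      _ ≤ M ^ 2 ^ t * M ^ 2 ^ t := mul_le_mul h4 h5 (by positivity) (by positivity)
      _ = M ^ 2 ^ (t + 1) := by
        rw [← pow_add]
        congr 1
        rw [pow_succ]
        omega

/-! ### The conflict graph of a formula -/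

open Pool.Agent.H243R3.TP (Clause Lit lits numSat ClauseSat LitTrue)

/-- the literal number `a` -/
def litAt (φ : List Clause) (a : ℕ) : Lit :=
  (lits (φ.getD (a / 3) ((0, true), (0, true), (0, true)))).getD (a % 3) (0, true)

/-- conflict of literal occurrences -/
def cf (φ : List Clause) (a b : ℕ) : Bool :=
  decide (a / 3 = b / 3) ||
    (decide ((litAt φ a).1 = (litAt φ b).1) && decide ((litAt φ a).2 ≠ (litAt φ b).2))

/-- the conflict graph -/
def fg (φ : List Clause) : List (List ℕ) := mkG (3 * φ.length) (cf φ)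

lemma cf_iff (φ : List Clause) (a b : ℕ) : cf φ a b = true ↔ a / 3 = b / 3 ∨
    ((litAt φ a).1 = (litAt φ b).1 ∧ (litAt φ a).2 ≠ (litAt φ b).2) := by
  simp [cf]

lemma numSat_eq (φ : List Clause) (A : List ℕ) : numSat φ A =
    ((List.range φ.length).filter fun j =>
      decide (ClauseSat A (φ.getD j ((0, true), (0, true), (0, true))))).length := by
  unfold numSat
  rw [List.countP_eq_length_filter]
  have h : φ = (List.range φ.length).map fun j => φ.getD j ((0, true), (0, true), (0, true)) := by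
    apply List.ext_getElem
    · simp
    · intro i h1 h2
      simp [List.getD_eq_getElem?_getD, List.getElem?_eq_getElem h1]
  conv_lhs => rw [h]
  rw [List.filter_map, List.length_map]
  rfl

lemma fg_ge {φ : List Clause} {A : List ℕ} (h : numSat φ A = φ.length) :
    ∃ S, Indep (fg φ) S ∧ S.length = φ.length := by
  have hall : ∀ j < φ.length, ClauseSat A (φ.getD j ((0, true), (0, true), (0, true))) := by
    rw [numSat_eq] at h
    have h1 : ((List.range φ.length).filter fun j =>
      decide (ClauseSat A (φ.getD j ((0, true), (0, true), (0, true))))).length =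
        (List.range φ.length).length := by rw [h, List.length_range]
    rw [List.length_filter_eq_length_iff] at h1
    intro j hj
    simpa using h1 j (List.mem_range.2 hj)
  have hex : ∀ j < φ.length, ∃ i < 3, LitTrue A (litAt φ (3 * j + i)) := by
    intro j hj
    obtain ⟨l, hl, hl'⟩ := hall j hj
    obtain ⟨i, hi, rfl⟩ := List.getElem_of_mem hl
    have hi3 : i < 3 := by simpa [lits] using hi
    refine ⟨i, hi3, ?_⟩
    unfold litAt
    rw [show (3 * j + i) / 3 = j by omega, show (3 * j + i) % 3 = i by omega,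
      List.getD_eq_getElem?_getD (l := lits _), List.getElem?_eq_getElem hi]
    exact hl'
  have hex' : ∀ j : ℕ, ∃ i, i < 3 ∧ (j < φ.length → LitTrue A (litAt φ (3 * j + i))) := by
    intro j
    by_cases hj : j < φ.length
    · obtain ⟨i, h1, h2⟩ := hex j hj
      exact ⟨i, h1, fun _ => h2⟩
    · exact ⟨0, by norm_num, fun h => absurd h hj⟩
  choose f hf1 hf2 using hex'
  refine ⟨(List.range φ.length).map fun j => 3 * j + f j, ?_, by simp⟩
  rw [indep_iff]
  refine ⟨?_, ?_, ?_⟩
  · refine List.Nodup.map_on ?_ List.nodup_range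
    intro x _ y _ hxy
    have := hf1 x
    have := hf1 y
    omega
  · intro v hv
    obtain ⟨j, hj, rfl⟩ := List.mem_map.1 hv
    rw [List.mem_range] at hj
    unfold fg
    rw [mkG_length]
    have := hf1 j
    omega
  · intro u hu v hv huv
    obtain ⟨j, hj, rfl⟩ := List.mem_map.1 hu
    obtain ⟨k, hk, rfl⟩ := List.mem_map.1 hv
    rw [List.mem_range] at hj hk
    unfold fg at huv
    rw [mkG_adj, cf_iff, cf_iff] at huv
    have a1 := hf1 j
    have a2 := hf1 k
    have t1 := hf2 j hj
    have t2 := hf2 k hk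
    unfold LitTrue at t1 t2
    have hne : j ≠ k := by
      rintro rfl
      exact huv.1 rfl
    rcases huv.2.2.2 with (h4 | ⟨h4, h5⟩) | (h4 | ⟨h4, h5⟩)
    · omega
    · rw [h4] at t1
      apply h5
      rw [Bool.eq_iff_iff]
      exact t1.symm.trans t2
    · omega
    · rw [h4] at t2
      apply h5
      rw [Bool.eq_iff_iff]
      exact t2.symm.trans t1

lemma fg_le {φ : List Clause} {S : List ℕ} (hS : Indep (fg φ) S) :
    ∃ A : List ℕ, S.length ≤ numSat φ A := by
  classical
  rw [indep_iff] at hS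
  obtain ⟨h1, h2, h3⟩ := hS
  have h2' : ∀ v ∈ S, v < 3 * φ.length := by
    intro v hv
    have := h2 v hv
    unfold fg at this
    rwa [mkG_length] at this
  have hadj : ∀ u ∈ S, ∀ v ∈ S, u ≠ v → ¬ (u / 3 = v / 3 ∨
      ((litAt φ u).1 = (litAt φ v).1 ∧ (litAt φ u).2 ≠ (litAt φ v).2)) := by
    intro u hu v hv huv hc
    refine h3 u hu v hv ?_
    unfold fg
    rw [mkG_adj, cf_iff]
    exact ⟨huv, h2' u hu, h2' v hv, Or.inl hc⟩
  let A : List ℕ := (S.filter fun a => (litAt φ a).2).map fun a => (litAt φ a).1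
  have hT : ∀ a ∈ S, LitTrue A (litAt φ a) := by
    intro a ha
    unfold LitTrue
    constructor
    · intro hm
      obtain ⟨b, hb, hb'⟩ := List.mem_map.1 hm
      rw [List.mem_filter] at hb
      by_contra hc
      have hab : a ≠ b := by
        rintro rfl
        exact hc hb.2
      apply hadj a ha b hb.1 hab
      right
      refine ⟨hb'.symm, ?_⟩
      rw [hb.2]
      exact hc
    · intro hm
      exact List.mem_map.2 ⟨a, List.mem_filter.2 ⟨ha, hm⟩, rfl⟩
  refine ⟨A, ?_⟩
  rw [numSat_eq]
  have h4 : (S.map (· / 3)).Nodup := by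
    refine List.Nodup.map_on ?_ h1
    intro x hx y hy hxy
    by_contra hc
    exact hadj x hx y hy hc (Or.inl hxy)
  have h5 := (h4.subperm (l₂ := (List.range φ.length).filter fun j =>
      decide (ClauseSat A (φ.getD j ((0, true), (0, true), (0, true))))) ?_).length_le
  · rwa [List.length_map] at h5
  · intro j hj
    obtain ⟨a, ha, rfl⟩ := List.mem_map.1 hj
    rw [List.mem_filter, List.mem_range, decide_eq_true_eq]
    have := h2' a ha
    refine ⟨by omega, litAt φ a, ?_, hT a ha⟩
    unfold litAt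
    have h3 : a % 3 < (lits (φ.getD (a / 3) ((0, true), (0, true), (0, true)))).length := by
      simp only [lits, List.length_cons, List.length_nil]
      omega
    rw [List.getD_eq_getElem?_getD (l := lits _), List.getElem?_eq_getElem h3]
    exact List.getElem_mem _

/-! ### Polynomial time -/

variable {α : Type} [TEnc α]

attribute [fun_prop] p_adj

theorem poly_mkG {N : α → ℕ} (hN : UPoly N) {t : α → ℕ → ℕ → Bool}
    (ht : Poly (fun p : (α × ℕ) × ℕ => t p.1.1 p.1.2 p.2)) : Poly (fun a => mkG (N a) (t a)) := by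
  unfold mkG
  have hR := hN.range
  refine NPC.Poly.map (F := fun a x => (List.range (N a)).filter fun y => t a x y) hR ?_
  exact Poly.filter (p := fun (p : α × ℕ) y => t p.1 p.2 y) (hR.comp (Poly.fst Poly.id)) ht

theorem poly_sq : Poly sq := by
  unfold sq
  refine poly_mkG (t := fun (A : List (List ℕ)) a b =>
    adj A (a / A.length) (b / A.length) || adj A (a % A.length) (b % A.length))
    (UPoly.mul (UPoly.length Poly.id) (UPoly.length Poly.id)) ?_
  fun_prop

theorem poly_iter {f : α → α} (hf : Poly f) (t : ℕ) : Poly (f^[t]) := by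
  induction t with
  | zero => exact Poly.id
  | succ t ih => exact (hf.comp ih).congr fun a => (Function.iterate_succ_apply' f t a).symm

theorem poly_litAt {φ : α → List Clause} {a : α → ℕ} (hφ : Poly φ) (ha : Poly a) :
    Poly (fun x => litAt (φ x) (a x)) := by
  unfold litAt lits
  fun_prop

theorem poly_fg : Poly fg := by
  unfold fg
  refine poly_mkG (N := fun φ : List Clause => 3 * φ.length) (t := cf)
    (UPoly.mul (UPoly.const 3) (UPoly.length Poly.id)) ?_
  unfold cf
  have h1 : Poly (fun p : (List Clause × ℕ) × ℕ => litAt p.1.1 p.1.2) :=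
    poly_litAt (Poly.fst (Poly.fst Poly.id)) (Poly.snd (Poly.fst Poly.id))
  have h2 : Poly (fun p : (List Clause × ℕ) × ℕ => litAt p.1.1 p.2) :=
    poly_litAt (Poly.fst (Poly.fst Poly.id)) (Poly.snd Poly.id)
  have h3 : Poly (fun p : (List Clause × ℕ) × ℕ =>
      decide ((litAt p.1.1 p.1.2).2 ≠ (litAt p.1.1 p.2).2)) :=
    Poly.decide_not (Poly.decide_eq (Poly.snd h1) (Poly.snd h2))
  have h4 : Poly (fun p : (List Clause × ℕ) × ℕ =>
      decide ((litAt p.1.1 p.1.2).1 = (litAt p.1.1 p.2).1)) :=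
    Poly.decide_eq (Poly.fst h1) (Poly.fst h2)
  have h5 : Poly (fun p : (List Clause × ℕ) × ℕ => decide (p.1.2 / 3 = p.2 / 3)) := by fun_prop
  exact Poly.or h5 (Poly.and h4 h3)

/-! ### Hardness of approximation -/

/-- If `P ≠ NP` then, for every constant `c > 0`, no polynomial-time algorithm for Maximum
Independent Set has performance guarantee `c`. -/
theorem collapse_of_misApprox {c : ℝ} (hc : 0 < c) (H : MISApprox c) :
    ∀ L : Set (List Bool), InNP L → InP L := by
  intro L hL
  obtain ⟨V, p, hV, hVL⟩ := hL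
  obtain ⟨red, ext, hr1, _, hr3⟩ := DP.pcp hV p
  obtain ⟨F, hF, hFs⟩ := H
  -- the constants
  obtain ⟨q, hq⟩ : ∃ q : ℕ, 1 / c < q := exists_nat_gt _
  have hq0 : 0 < (q : ℝ) := lt_trans (by positivity) hq
  have hqc : 1 < (q : ℝ) * c := by
    rw [div_lt_iff₀ hc] at hq
    linarith
  set ρ : ℝ := 1 - 1 / (DP.K0 : ℝ) with hρ
  have hK : (1 : ℝ) ≤ (DP.K0 : ℝ) := by
    have : 1 ≤ DP.K0 := by unfold DP.K0 Pool.Agent.H243R3.PCP.c1; norm_num
    exact_mod_cast this
  have hρ0 : 0 ≤ ρ := by
    rw [hρ, sub_nonneg, div_le_one (by linarith)]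
    exact hK
  have hρ1 : ρ < 1 := by
    rw [hρ]
    have : 0 < 1 / (DP.K0 : ℝ) := by positivity
    linarith
  obtain ⟨k, hk⟩ : ∃ k : ℕ, ρ ^ k < 1 / q := exists_pow_lt_of_lt_one (by positivity) hρ1
  obtain ⟨t, ht⟩ : ∃ t : ℕ, k ≤ 2 ^ t := ⟨k, Nat.lt_two_pow_self.le⟩
  have hkt : ρ ^ 2 ^ t < 1 / q := lt_of_le_of_lt (pow_le_pow_of_le_one hρ0 hρ1.le ht) hk
  -- the algorithm
  let G : List Bool → List (List ℕ) := fun x => sq^[t] (fg (red x))
  have hG : Poly G := (poly_iter poly_sq t).comp (poly_fg.comp hr1)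
  let M : List Bool → ℕ := fun x => (fun m => m * m)^[t] (red x).length
  have hM : Poly M := (poly_iter (f := fun m : ℕ => m * m) (by fun_prop) t).comp
    (Poly.length hr1)
  have hMe : ∀ x, M x = (red x).length ^ 2 ^ t := by
    intro x
    have : ∀ (t m : ℕ), (fun m => m * m)^[t] m = m ^ 2 ^ t := by
      intro t
      induction t with
      | zero => intro m; simp
      | succ t ih =>
        intro m
        rw [Function.iterate_succ_apply', ih, ← pow_add, pow_succ]
        congr 1
        omega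
    exact this t _
  let d : List Bool → Bool := fun x => (unbits (List ℕ) (F (bits (G x)))).any
    fun S => decide (M x ≤ q * S.length)
  have hd : Poly d := by
    refine Poly.optAny_fp (o := fun x => unbits (List ℕ) (F (bits (G x))))
      (h := fun x S => decide (M x ≤ q * S.length)) ?_ ?_
    · exact poly_unbits.comp ((Pool.Agent.H622R2.poly_of_polyTime hF).comp
        (R671.poly_bits.comp hG))
    · have hM' : Poly (fun p : List Bool × List ℕ => M p.1) := hM.comp (Poly.fst Poly.id)
      exact Poly.decide_le hM' (by fun_prop)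
  refine ⟨fun x => [d x], polyTime_of_poly hd, fun x => ?_⟩
  have hdx : [d x] = [true] ↔ d x = true := by simp
  rw [hdx]
  obtain ⟨S, hS1, hS2, hS3⟩ := hFs (G x)
  have hdS : d x = true ↔ M x ≤ q * S.length := by
    simp only [d]
    rw [hS1, unbits_bits]
    simp
  rw [hdS, hMe]
  obtain ⟨⟨a1, a2⟩, a3, a4⟩ := hr3 x
  have hm : 0 < (red x).length := List.length_pos_of_ne_nil a1
  constructor
  · intro hx
    obtain ⟨A, _, hA⟩ := a3 ((hVL x).1 hx)
    have h1 := Pool.Agent.H243R3.PCP.unsat_add (red x) A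
    have h2 : numSat (red x) A = (red x).length := by omega
    obtain ⟨S₀, h3, h4⟩ := fg_ge h2
    obtain ⟨S₁, h5, h6⟩ := iter_ge h3 t
    have h7 := hS3 S₁ h5
    rw [h6, h4] at h7
    have h8 : (((red x).length ^ 2 ^ t : ℕ) : ℝ) ≤ ((q * S.length : ℕ) : ℝ) := by
      calc (((red x).length ^ 2 ^ t : ℕ) : ℝ) ≤
          (q * c) * (((red x).length ^ 2 ^ t : ℕ) : ℝ) :=
            le_mul_of_one_le_left (by positivity) hqc.le
        _ = q * (c * (((red x).length ^ 2 ^ t : ℕ) : ℝ)) := by ring
        _ ≤ q * S.length := mul_le_mul_of_nonneg_left h7 hq0.le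
        _ = ((q * S.length : ℕ) : ℝ) := by push_cast; ring
    exact_mod_cast h8
  · intro hle
    by_contra hx
    -- every assignment leaves many clauses unsatisfied
    have h1 : ∀ A, (numSat (red x) A : ℝ) ≤ ρ * (red x).length := by
      intro A
      by_contra hc2
      push Not at hc2
      apply hx
      rw [hVL x]
      refine ⟨_, (a4 A ?_).1, (a4 A ?_).2⟩ <;>
      · have h2 := Pool.Agent.H243R3.PCP.unsat_add (red x) A
        have h3 : (Pool.Agent.H243R3.PCP.unsat (red x) A : ℝ) = (red x).length - numSat (red x) A := by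
          rw [← h2]; push_cast; ring
        have h4 : (DP.K0 : ℝ) * Pool.Agent.H243R3.PCP.unsat (red x) A < (red x).length := by
          rw [h3]
          have h5 : (DP.K0 : ℝ) * (ρ * (red x).length) =
              (DP.K0 : ℝ) * (red x).length - (red x).length := by
            rw [hρ]
            field_simp
          have h6 : (DP.K0 : ℝ) * (ρ * (red x).length) < DP.K0 * numSat (red x) A :=
            mul_lt_mul_of_pos_left hc2 (by linarith)
          linarith
        exact_mod_cast h4
    have h2 : ∀ S, Indep (fg (red x)) S → (S.length : ℝ) ≤ ρ * (red x).length := by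
      intro S hS
      obtain ⟨A, hA⟩ := fg_le hS
      exact le_trans (by exact_mod_cast hA) (h1 A)
    have h3 := iter_le (by positivity) h2 t S hS2
    have h4 : (((red x).length ^ 2 ^ t : ℕ) : ℝ) ≤ ((q * S.length : ℕ) : ℝ) := by
      exact_mod_cast hle
    push_cast at h4
    rw [mul_pow] at h3
    have h5 : (q : ℝ) * (ρ ^ 2 ^ t * ((red x).length : ℝ) ^ 2 ^ t) <
        ((red x).length : ℝ) ^ 2 ^ t := by
      have h6 : (q : ℝ) * ρ ^ 2 ^ t < 1 := by
        rw [lt_div_iff₀ hq0] at hkt
        linarith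
      have h7 : (0 : ℝ) < ((red x).length : ℝ) ^ 2 ^ t := by positivity
      calc (q : ℝ) * (ρ ^ 2 ^ t * ((red x).length : ℝ) ^ 2 ^ t) =
          ((q : ℝ) * ρ ^ 2 ^ t) * ((red x).length : ℝ) ^ 2 ^ t := by ring
        _ < 1 * ((red x).length : ℝ) ^ 2 ^ t := mul_lt_mul_of_pos_right h6 h7
        _ = _ := one_mul _
    have h8 : (q : ℝ) * S.length ≤ q * (ρ ^ 2 ^ t * ((red x).length : ℝ) ^ 2 ^ t) :=
      mul_le_mul_of_nonneg_left h3 hq0.le
    linarith

end Pool.Agent.TH688.Mis
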