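import Pool.Agent.TH688.Mis

set_option autoImplicit false

/-!
# Maximum independent sets can be found in polynomial time if `P = NP`
-/

namespace Pool.Agent.TH688.Mis

open Pool.Agent.NPC Pool.Agent.H688R2.RInd

variable {α β : Type} [TEnc α] [TEnc β]

/-! ### The longest member of a list of lists -/

/-- a longest member -/
def best {β : Type} (L : List (List β)) : List β :=
  ((L.filter fun S => L.all fun T => decide (T.length ≤ S.length)).head?).getD []

lemma exists_longest {β : Type} : ∀ {L : List (List β)}, L ≠ [] →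
    ∃ S ∈ L, ∀ T ∈ L, T.length ≤ S.length
  | [], h => absurd rfl h
  | [a], _ => ⟨a, by simp, by simp⟩
  | a :: b :: L, _ => by
    obtain ⟨S, h1, h2⟩ := exists_longest (L := b :: L) (by simp)
    by_cases h : a.length ≤ S.length
    · refine ⟨S, List.mem_cons_of_mem _ h1, ?_⟩
      intro T hT
      rcases List.mem_cons.1 hT with rfl | hT
      · exact h
      · exact h2 T hT
    · refine ⟨a, List.mem_cons_self, ?_⟩
      intro T hT
      rcases List.mem_cons.1 hT with rfl | hT
      · exact le_rfl
      · have := h2 T hT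
        omega

lemma best_spec {β : Type} {L : List (List β)} (hL : L ≠ []) :
    best L ∈ L ∧ ∀ T ∈ L, T.length ≤ (best L).length := by
  obtain ⟨S, h1, h2⟩ := exists_longest hL
  have h3 : S ∈ L.filter fun S => L.all fun T => decide (T.length ≤ S.length) := by
    rw [List.mem_filter]
    exact ⟨h1, by simpa using h2⟩
  obtain ⟨S', h4⟩ : ∃ S', (L.filter fun S => L.all fun T =>
      decide (T.length ≤ S.length)).head? = some S' := by
    cases h : (L.filter fun S => L.all fun T => decide (T.length ≤ S.length)).head? with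
    | none =>
      rw [List.head?_eq_none_iff] at h
      rw [h] at h3
      simp at h3
    | some S' => exact ⟨S', rfl⟩
  have h5 : best L = S' := by
    unfold best
    rw [h4, Option.getD_some]
  have h6 := List.mem_of_head? h4
  rw [List.mem_filter] at h6
  rw [h5]
  exact ⟨h6.1, by simpa using h6.2⟩

theorem poly_best {L : α → List (List β)} (hL : Poly L) : Poly (fun a => best (L a)) := by
  unfold best
  refine Poly.head?_getD ?_ []
  refine Poly.filter (p := fun a S => (L a).all fun T => decide (T.length ≤ S.length)) hL ?_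
  refine Poly.all (p := fun (x : α × List β) T => decide (T.length ≤ x.2.length))
    (hL.comp (Poly.fst Poly.id)) ?_
  exact Poly.decide_le (Poly.length (Poly.snd Poly.id)) (Poly.length (Poly.snd (Poly.fst Poly.id)))

/-! ### The test of independence -/

/-- is `S` an independent set? -/
def chk (A : List (List ℕ)) (S : List ℕ) : Bool :=
  S.all (fun v => decide (v < A.length)) &&
    S.zipIdx.all (fun p => S.zipIdx.all (fun q =>
      decide (p.2 = q.2) || (!decide (p.1 = q.1) && !adj A p.1 q.1)))

lemma chk_iff (A : List (List ℕ)) (S : List ℕ) : chk A S = true ↔ Indep A S := by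
  unfold chk Indep
  simp only [Bool.and_eq_true, List.all_eq_true, decide_eq_true_eq, Bool.or_eq_true,
    Bool.not_eq_true', decide_eq_false_iff_not]
  refine and_congr Iff.rfl ?_
  rw [List.pairwise_iff_getElem]
  constructor
  · intro h i j hi hj hij
    have h1 := h (S[i], i) (List.mem_zipIdx_iff_getElem?.2 (List.getElem?_eq_getElem hi))
      (S[j], j) (List.mem_zipIdx_iff_getElem?.2 (List.getElem?_eq_getElem hj))
    rcases h1 with h1 | ⟨h1, h2⟩
    · exact absurd h1 (by simp; omega)
    · refine ⟨h1, fun h3 => ?_⟩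
      rw [← adj_iff] at h3
      rw [h3] at h2
      exact absurd h2 (by simp)
  · rintro h ⟨u, i⟩ hp ⟨v, j⟩ hq
    rw [List.mem_zipIdx_iff_getElem?] at hp hq
    simp only at hp hq
    obtain ⟨hi, rfl⟩ := List.getElem?_eq_some_iff.1 hp
    obtain ⟨hj, rfl⟩ := List.getElem?_eq_some_iff.1 hq
    simp only
    rcases lt_trichotomy i j with hij | hij | hij
    · right
      obtain ⟨h1, h2⟩ := h i j hi hj hij
      refine ⟨h1, ?_⟩
      rw [← adj_iff] at h2
      simpa using h2
    · left; exact hij
    · right
      obtain ⟨h1, h2⟩ := h j i hj hi hij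
      refine ⟨fun h => h1 h.symm, ?_⟩
      rw [← adj_iff, adj_comm'] at h2
      simpa using h2

theorem poly_chk : Poly (fun p : List (List ℕ) × List ℕ => chk p.1 p.2) := by
  unfold chk
  fun_prop

lemma indep_length {A : List (List ℕ)} {S : List ℕ} (hS : Indep A S) : S.length ≤ A.length := by
  rw [indep_iff] at hS
  have h := (hS.1.subperm (l₂ := List.range A.length) (fun v hv => by
    rw [List.mem_range]; exact hS.2.1 v hv)).length_le
  simpa using h

lemma indep_sz {A : List (List ℕ)} {S : List ℕ} (hS : Indep A S) :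
    sz S ≤ sz A * (4 * sz A + 2) + 1 := by
  have h1 : ∀ v ∈ S, sz v ≤ 4 * sz A + 1 := by
    intro v hv
    have h2 := sz_nat_le v
    have h3 : v.size ≤ v := Nat.size_le.2 Nat.lt_two_pow_self
    have h4 := hS.1 v hv
    have h5 := length_lt_sz A
    omega
  have h2 := sz_le_length_mul S _ h1
  have h3 := indep_length hS
  have h4 := length_lt_sz A
  have h5 : S.length * (4 * sz A + 1 + 1) ≤ sz A * (4 * sz A + 1 + 1) :=
    Nat.mul_le_mul_right _ (by omega)
  calc sz S ≤ _ := h2
    _ ≤ _ := Nat.add_le_add_right h5 1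

/-- If `P = NP`, a maximum independent set can be computed in polynomial time. -/
theorem exists_mis (H : ∀ L : Set (List Bool), InNP L → InP L) :
    ∃ mis : List (List ℕ) → List ℕ, Poly mis ∧
      ∀ A, Indep A (mis A) ∧ ∀ S, Indep A S → S.length ≤ (mis A).length := by
  let R : (List (List ℕ) × ℕ) × List ℕ → Bool := fun x =>
    decide (x.2.length = x.1.2) && chk x.1.1 x.2
  have hR : Poly R := by
    have h1 : Poly (fun x : (List (List ℕ) × ℕ) × List ℕ => chk x.1.1 x.2) :=
      poly_chk.comp (Poly.pair (Poly.fst (Poly.fst Poly.id)) (Poly.snd Poly.id))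
    exact Poly.and (Poly.decide_eq (Poly.length (Poly.snd Poly.id))
      (Poly.snd (Poly.fst Poly.id))) h1
  have hRi : ∀ A k S, R ((A, k), S) = true ↔ S.length = k ∧ Indep A S := by
    intro A k S
    simp only [R, Bool.and_eq_true, decide_eq_true_eq, chk_iff]
  obtain ⟨F, hF, hFs⟩ := R671.search_of_collapse hR
    (Polynomial.X * (4 * Polynomial.X + 2) + 1) (by
      rintro ⟨A, k⟩ S hS
      rw [hRi] at hS
      have h1 := indep_sz hS.2
      have h2 : sz A ≤ sz (A, k) := by rw [sz_pair]; omega
      simp only [Polynomial.eval_add, Polynomial.eval_mul, Polynomial.eval_X,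
        Polynomial.eval_one, Polynomial.eval_ofNat]
      refine h1.trans (Nat.add_le_add_right (Nat.mul_le_mul h2 (by omega)) 1)) H
  -- the candidates
  let cand : List (List ℕ) → ℕ → List ℕ := fun A k =>
    (unbits (List ℕ) (F (bits (A, k)))).getD []
  have hcand : Poly (fun x : List (List ℕ) × ℕ => cand x.1 x.2) := by
    refine NPC.Poly.optGetD (o := fun x : List (List ℕ) × ℕ =>
      unbits (List ℕ) (F (bits (x.1, x.2)))) (g := fun _ => []) ?_ (NPC.Poly.const _)
    exact poly_unbits.comp ((Pool.Agent.H622R2.poly_of_polyTime hF).comp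
      (R671.poly_bits.comp (Poly.pair (Poly.fst Poly.id) (Poly.snd Poly.id))))
  let L : List (List ℕ) → List (List ℕ) := fun A =>
    ((List.range (A.length + 1)).map fun k => cand A k).filter fun S => chk A S
  have hL : Poly L := by
    refine Poly.filter (p := fun A S => chk A S) ?_ poly_chk
    exact NPC.Poly.map (F := fun A k => cand A k)
      (UPoly.add (UPoly.length Poly.id) (UPoly.const 1)).range hcand
  have hmem : ∀ A S, Indep A S → ∃ T ∈ L A, T.length = S.length := by
    intro A S hS
    obtain ⟨T, h1, h2⟩ := hFs (A, S.length) ⟨S, (hRi _ _ _).2 ⟨rfl, hS⟩⟩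
    rw [hRi] at h1
    refine ⟨T, ?_, h1.1⟩
    simp only [L, List.mem_filter, List.mem_map, List.mem_range]
    refine ⟨⟨S.length, ?_, ?_⟩, (chk_iff A T).2 h1.2⟩
    · have := indep_length hS
      omega
    · simp only [cand]
      rw [h2, unbits_bits, Option.getD_some]
  refine ⟨fun A => best (L A), poly_best hL, fun A => ?_⟩
  obtain ⟨T₀, h0, _⟩ := hmem A [] ⟨by simp, List.Pairwise.nil⟩
  obtain ⟨h1, h2⟩ := best_spec (List.ne_nil_of_mem h0)
  refine ⟨(chk_iff A _).1 (List.mem_filter.1 h1).2, fun S hS => ?_⟩
  obtain ⟨T, h3, h4⟩ := hmem A S hS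
  rw [← h4]
  exact h2 T h3

end Pool.Agent.TH688.Mis
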