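import Pool.Agent.TH688.Best
import Pool.Agent.H688R2.RInd.Pos

set_option autoImplicit false

/-!
# `r`-independent sets in continuous graphs: discretization

If `P = NP` then for every rational `r > 1 / 2` the maximum `r`-independent set problem has a
polynomial-time constant-factor approximation algorithm.
-/

namespace Pool.Agent.TH688.RInd

open Pool.Agent.NPC Pool.Agent.H688R2.RInd Pool.Agent.TH688.Mis
open scoped ENNReal

/-- is there a walk of length at most `k`? -/
def near (A : List (List ℕ)) : ℕ → ℕ → ℕ → Bool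
  | 0, x, y => decide (x = y)
  | k + 1, x, y => near A k x y || (List.range A.length).any (fun z => adj A x z && near A k z y)

lemma near_mono {A : List (List ℕ)} {k l x y : ℕ} (h : near A k x y = true) (hkl : k ≤ l) :
    near A l x y = true := by
  induction l, hkl using Nat.le_induction with
  | base => exact h
  | succ l _ ih => simp [near, ih]

lemma near_walk {A : List (List ℕ)} {x y : ℕ} (w : (gr A).Walk x y) :
    near A w.length x y = true := by
  induction w with
  | nil => simp [near]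
  | @cons x z y hxz w ih =>
    rw [SimpleGraph.Walk.length_cons, near, Bool.or_eq_true, List.any_eq_true]
    right
    refine ⟨z, List.mem_range.2 hxz.2.2.1, ?_⟩
    rw [Bool.and_eq_true, adj_iff]
    exact ⟨hxz, ih⟩

lemma near_iff (A : List (List ℕ)) (k x y : ℕ) :
    near A k x y = true ↔ (gr A).edist x y ≤ k := by
  constructor
  · intro h
    induction k generalizing x with
    | zero =>
      have h1 : x = y := by simpa [near] using h
      rw [h1, SimpleGraph.edist_self]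
      exact zero_le
    | succ k ih =>
      rw [near, Bool.or_eq_true, List.any_eq_true] at h
      rcases h with h | ⟨z, _, h⟩
      · exact (ih x h).trans (by exact_mod_cast Nat.le_succ k)
      · rw [Bool.and_eq_true, adj_iff] at h
        calc (gr A).edist x y ≤ (gr A).edist x z + (gr A).edist z y := SimpleGraph.edist_triangle
          _ ≤ 1 + k := by
            refine add_le_add ?_ (ih z h.2)
            rw [SimpleGraph.edist_eq_one_iff_adj.2 h.1]
          _ = ((k + 1 : ℕ) : ℕ∞) := by push_cast; ring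
  · intro h
    have h1 : (gr A).edist x y ≠ ⊤ := ne_top_of_le_ne_top (ENat.natCast_ne_top k) h
    obtain ⟨w, hw⟩ := SimpleGraph.exists_walk_of_edist_ne_top h1
    refine near_mono (near_walk w) ?_
    rw [← hw] at h
    exact_mod_cast h

/-- is the length of the route at least `R / D`? -/
def rt (A : List (List ℕ)) (D R a s b t : ℕ) : Bool :=
  (List.range (R + 1)).all fun k => !decide (s + t + D * k < R) || !near A k a b

lemma rt_iff' (A : List (List ℕ)) (D R a s b t : ℕ) : rt A D R a s b t = true ↔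
    ∀ k < R + 1, s + t + D * k < R → ¬ near A k a b = true := by
  simp only [rt, List.all_eq_true, List.mem_range, Bool.or_eq_true, Bool.not_eq_true',
    decide_eq_false_iff_not, Bool.not_eq_true]
  constructor
  · intro h k hk hs
    rcases h k hk with h | h
    · exact absurd hs h
    · exact h
  · intro h k hk
    by_cases hs : s + t + D * k < R
    · exact Or.inr (h k hk hs)
    · exact Or.inl hs

lemma route_fin {A : List (List ℕ)} {a b : ℕ} {x y : ℝ} (hx : 0 ≤ x) (hy : 0 ≤ y) {n : ℕ}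
    (hn : (gr A).edist a b = n) : route A a x b y = ENNReal.ofReal (x + n + y) := by
  rw [route, hn, ENNReal.ofReal_add (by positivity) hy, ENNReal.ofReal_add hx (by positivity)]
  simp

lemma rt_of {A : List (List ℕ)} {D R a s b t : ℕ} {x y : ℝ} (hD : 0 < D) (hx : 0 ≤ x) (hy : 0 ≤ y)
    (h : ENNReal.ofReal ((R : ℝ) / D) ≤ route A a x b y)
    (hh : ∀ n : ℕ, (R : ℝ) ≤ D * x + D * n + D * y → R ≤ s + t + D * n) :
    rt A D R a s b t = true := by
  rw [rt_iff']
  intro k _ hk hn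
  rw [near_iff] at hn
  have h1 : (gr A).edist a b ≠ ⊤ := ne_top_of_le_ne_top (ENat.natCast_ne_top k) hn
  obtain ⟨n, hn'⟩ := ENat.ne_top_iff_exists.1 h1
  rw [← hn'] at hn
  have hnk : n ≤ k := by exact_mod_cast hn
  rw [route_fin hx hy hn'.symm, ENNReal.ofReal_le_ofReal_iff (by positivity)] at h
  have hD' : (0 : ℝ) < D := by exact_mod_cast hD
  rw [div_le_iff₀ hD'] at h
  have h2 := hh n (by linarith)
  have h3 : D * n ≤ D * k := Nat.mul_le_mul_left _ hnk
  omega

lemma of_rt {A : List (List ℕ)} {D R a s b t : ℕ} (hD : 0 < D) (h : rt A D R a s b t = true)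
    {x y : ℝ} (hx : x = (s : ℝ) / D) (hy : y = (t : ℝ) / D) :
    ENNReal.ofReal ((R : ℝ) / D) ≤ route A a x b y := by
  have hD' : (0 : ℝ) < D := by exact_mod_cast hD
  rw [rt_iff'] at h
  by_cases h1 : (gr A).edist a b = ⊤
  · rw [route, h1]
    simp
  · obtain ⟨n, hn'⟩ := ENat.ne_top_iff_exists.1 h1
    rw [route_fin (by rw [hx]; positivity) (by rw [hy]; positivity) hn'.symm]
    refine ENNReal.ofReal_le_ofReal ?_
    rw [hx, hy, div_le_iff₀ hD']
    have h2 : R ≤ s + t + D * n := by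
      by_contra hc
      push Not at hc
      have h3 : n < R + 1 := by
        have : n ≤ D * n := Nat.le_mul_of_pos_left n hD
        omega
      refine h n h3 hc ?_
      rw [near_iff, ← hn']
    have h3 : (R : ℝ) ≤ s + t + D * n := by exact_mod_cast h2
    have h4 : ((s : ℝ) / D + n + t / D) * D = s + t + D * n := by
      field_simp
      ring
    rw [h4]
    exact h3

/-- the points lie on the same edge -/
def same (o o' : ℕ × ℕ × ℕ × ℕ) : Bool :=
  (decide (o.1 = o'.1) && decide (o.2.1 = o'.2.1)) ||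
    (decide (o.1 = o'.2.1) && decide (o.2.1 = o'.1))

/-- the test for pairs -/
def ok (A : List (List ℕ)) (D R : ℕ) (o o' : ℕ × ℕ × ℕ × ℕ) : Bool :=
  !same o o' && ((rt A D R o.1 o.2.2.1 o'.1 o'.2.2.1 &&
    rt A D R o.1 o.2.2.1 o'.2.1 (D - o'.2.2.1)) &&
    (rt A D R o.2.1 (D - o.2.2.1) o'.1 o'.2.2.1 &&
    rt A D R o.2.1 (D - o.2.2.1) o'.2.1 (D - o'.2.2.1)))

/-- the test for points -/
def vld (A : List (List ℕ)) (D : ℕ) (o : ℕ × ℕ × ℕ × ℕ) : Bool :=
  (decide (o.2.2.2 = D) && decide (o.2.2.1 ≤ D)) &&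
    (adj A o.1 o.2.1 || (decide (o.1 = o.2.1) && (decide (o.1 < A.length) &&
      decide (o.2.2.1 = 0))))

/-- the test -/
def chk (D R : ℕ) (x : List (List ℕ) × List (ℕ × ℕ × ℕ × ℕ)) : Bool :=
  x.2.all (fun o => vld x.1 D o) &&
    x.2.zipIdx.all (fun p => x.2.zipIdx.all (fun q =>
      decide (q.2 ≤ p.2) || ok x.1 D R p.1 q.1))

lemma pw_iff {β : Type} (T : β → β → Bool) (S : List β) :
    S.zipIdx.all (fun p => S.zipIdx.all (fun q => decide (q.2 ≤ p.2) || T p.1 q.1)) = true ↔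
      S.Pairwise fun a b => T a b = true := by
  rw [List.pairwise_iff_getElem]
  simp only [List.all_eq_true, Bool.or_eq_true, decide_eq_true_eq]
  constructor
  · intro h i j hi hj hij
    have h1 := h (S[i], i) (List.mem_zipIdx_iff_getElem?.2 (List.getElem?_eq_getElem hi))
      (S[j], j) (List.mem_zipIdx_iff_getElem?.2 (List.getElem?_eq_getElem hj))
    rcases h1 with h1 | h1
    · simp only at h1
      omega
    · exact h1
  · rintro h ⟨u, i⟩ hp ⟨v, j⟩ hq
    rw [List.mem_zipIdx_iff_getElem?] at hp hq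
    simp only at hp hq
    obtain ⟨hi, rfl⟩ := List.getElem?_eq_some_iff.1 hp
    obtain ⟨hj, rfl⟩ := List.getElem?_eq_some_iff.1 hq
    simp only
    by_cases hij : j ≤ i
    · exact Or.inl hij
    · exact Or.inr (h i j hi hj (by omega))

lemma vld_iff (A : List (List ℕ)) (D : ℕ) (o : ℕ × ℕ × ℕ × ℕ) : vld A D o = true ↔
    o.2.2.2 = D ∧ o.2.2.1 ≤ D ∧ ((gr A).Adj o.1 o.2.1 ∨ (o.1 = o.2.1 ∧ o.1 < A.length ∧
      o.2.2.1 = 0)) := by
  simp only [vld, Bool.and_eq_true, Bool.or_eq_true, decide_eq_true_eq, adj_iff, and_assoc]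

lemma chk_iff (A : List (List ℕ)) (D R : ℕ) (O : List (ℕ × ℕ × ℕ × ℕ)) :
    chk D R (A, O) = true ↔ (∀ o ∈ O, vld A D o = true) ∧
      O.Pairwise fun o o' => ok A D R o o' = true := by
  unfold chk
  rw [Bool.and_eq_true, List.all_eq_true]
  exact and_congr Iff.rfl (pw_iff (fun o o' => ok A D R o o') O)

lemma vld_isPt {A : List (List ℕ)} {D : ℕ} (hD : 0 < D) {o : ℕ × ℕ × ℕ × ℕ}
    (h : vld A D o = true) : IsPt A (ofOut o) := by
  rw [vld_iff] at h
  obtain ⟨h1, h2, h3⟩ := h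
  have hD' : (0 : ℝ) < D := by exact_mod_cast hD
  rcases h3 with h3 | ⟨h3, h4, h5⟩
  · left
    refine ⟨h3, ?_, ?_⟩
    · simp only [ofOut, h1]
      positivity
    · simp only [ofOut, h1]
      rw [div_le_one hD']
      exact_mod_cast h2
  · right
    refine ⟨h3, h4, ?_⟩
    simp only [ofOut, h5]
    simp

lemma ok_cdist {A : List (List ℕ)} {D R : ℕ} (hD : 0 < D) {o o' : ℕ × ℕ × ℕ × ℕ}
    (h : vld A D o = true) (h' : vld A D o' = true) (hok : ok A D R o o' = true) :
    ENNReal.ofReal ((R : ℝ) / D) ≤ cdist A (ofOut o) (ofOut o') := by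
  rw [vld_iff] at h h'
  obtain ⟨h1, h2, -⟩ := h
  obtain ⟨h1', h2', -⟩ := h'
  have hD' : (0 : ℝ) < D := by exact_mod_cast hD
  simp only [ok, same, Bool.and_eq_true, Bool.not_eq_true', Bool.or_eq_false_iff,
    Bool.and_eq_false_iff, decide_eq_false_iff_not] at hok
  obtain ⟨⟨s1, s2⟩, ⟨r1, r2⟩, r3, r4⟩ := hok
  have x1 : (ofOut o).x = ((o.2.2.1 : ℕ) : ℝ) / D := by simp only [ofOut, h1]
  have x1' : (ofOut o').x = ((o'.2.2.1 : ℕ) : ℝ) / D := by simp only [ofOut, h1']
  have y1 : 1 - (ofOut o).x = ((D - o.2.2.1 : ℕ) : ℝ) / D := by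
    rw [x1, Nat.cast_sub h2]
    field_simp
  have y1' : 1 - (ofOut o').x = ((D - o'.2.2.1 : ℕ) : ℝ) / D := by
    rw [x1', Nat.cast_sub h2']
    field_simp
  unfold cdist
  refine le_min ?_ (le_min (le_min ?_ ?_) (le_min ?_ ?_))
  · have : direct (ofOut o) (ofOut o') = ⊤ := by
      unfold direct
      rw [if_neg, if_neg]
      · rintro ⟨e1, e2⟩
        rcases s2 with s | s
        · exact s e1
        · exact s e2
      · rintro ⟨e1, e2⟩
        rcases s1 with s | s
        · exact s e1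
        · exact s e2
    rw [this]
    exact le_top
  · exact of_rt hD r1 x1 x1'
  · exact of_rt hD r2 x1 y1'
  · exact of_rt hD r3 y1 x1'
  · exact of_rt hD r4 y1 y1'

lemma chk_rindep {A : List (List ℕ)} {D R : ℕ} {r : ℝ} (hD : 0 < D)
    (hr : 2 * r = (R : ℝ) / D) {O : List (ℕ × ℕ × ℕ × ℕ)} (h : chk D R (A, O) = true) :
    (∀ o ∈ O, o.2.2.2 ≠ 0) ∧ RIndep A r (O.map ofOut) := by
  rw [chk_iff] at h
  obtain ⟨h1, h2⟩ := h
  refine ⟨fun o ho => ?_, ?_, ?_⟩
  · have := (vld_iff A D o).1 (h1 o ho)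
    rw [this.1]
    omega
  · intro p hp
    obtain ⟨o, ho, rfl⟩ := List.mem_map.1 hp
    exact vld_isPt hD (h1 o ho)
  · rw [List.pairwise_map]
    refine h2.imp_of_mem ?_
    intro o o' ho ho' hok
    rw [hr]
    exact ok_cdist hD (h1 o ho) (h1 o' ho') hok

/-! ### Rounding -/

/-- one of the two ends of the edge of a point, with the distance -/
def End (p : Pt) (e : ℕ) (s : ℝ) : Prop := (e = p.u ∧ s = p.x) ∨ (e = p.v ∧ s = 1 - p.x)

/-- rounding of a point -/
noncomputable def rd (D : ℕ) (p : Pt) : ℕ × ℕ × ℕ × ℕ :=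
  if p.u = p.v then (p.u, p.u, 0, D)
  else if p.u < p.v then (p.u, p.v, ⌊(D : ℝ) * p.x⌋₊, D)
  else (p.v, p.u, ⌊(D : ℝ) * (1 - p.x)⌋₊, D)

lemma rd_spec {A : List (List ℕ)} {D : ℕ} (hD : 0 < D) {p : Pt} (hp : IsPt A p) :
    vld A D (rd D p) = true ∧ ∃ y : ℝ, 0 ≤ y ∧ y ≤ 1 ∧ End p (rd D p).1 y ∧
      End p (rd D p).2.1 (1 - y) ∧ ((rd D p).2.2.1 : ℝ) ≤ D * y ∧
      (D : ℝ) * y < (rd D p).2.2.1 + 1 ∧ (rd D p).2.2.1 ≤ D := by
  have hD' : (0 : ℝ) < D := by exact_mod_cast hD
  have hfl : ∀ y : ℝ, y ≤ 1 → ⌊(D : ℝ) * y⌋₊ ≤ D := by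
    intro y hy
    refine Nat.floor_le_of_le ?_
    nlinarith
  rcases hp with ⟨h1, h2, h3⟩ | ⟨h1, h2, h3⟩
  · rcases lt_trichotomy p.u p.v with h | h | h
    · have e : rd D p = (p.u, p.v, ⌊(D : ℝ) * p.x⌋₊, D) := by
        rw [rd, if_neg h.ne, if_pos h]
      rw [e]
      refine ⟨(vld_iff _ _ _).2 ⟨rfl, hfl _ h3, Or.inl h1⟩, p.x, h2, h3, Or.inl ⟨rfl, rfl⟩,
        Or.inr ⟨rfl, rfl⟩, Nat.floor_le (by positivity), Nat.lt_floor_add_one _, hfl _ h3⟩
    · exact absurd h h1.ne
    · have e : rd D p = (p.v, p.u, ⌊(D : ℝ) * (1 - p.x)⌋₊, D) := by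
        rw [rd, if_neg h.ne', if_neg (by omega)]
      rw [e]
      have h4 : 1 - p.x ≤ 1 := by linarith
      have h5 : 0 ≤ 1 - p.x := by linarith
      refine ⟨(vld_iff _ _ _).2 ⟨rfl, hfl _ h4, Or.inl h1.symm⟩, 1 - p.x, h5, h4,
        Or.inr ⟨rfl, rfl⟩, Or.inl ⟨rfl, by ring⟩, Nat.floor_le (by positivity),
        Nat.lt_floor_add_one _, hfl _ h4⟩
  · have e : rd D p = (p.u, p.u, 0, D) := by rw [rd, if_pos h1]
    rw [e]
    refine ⟨(vld_iff _ _ _).2 ⟨rfl, Nat.zero_le _, Or.inr ⟨rfl, h2, rfl⟩⟩, 0, le_rfl, zero_le_one,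
      Or.inl ⟨rfl, h3.symm⟩, Or.inr ⟨h1, by rw [h3]⟩, by simp, by simp, Nat.zero_le _⟩

lemma cdist_le_end {A : List (List ℕ)} {p q : Pt} {e e' : ℕ} {s s' : ℝ}
    (h1 : End p e s) (h1' : End q e' s') : cdist A p q ≤ route A e s e' s' :=
  cdist_le_route h1 h1'

lemma same_le {A : List (List ℕ)} {p q : Pt} {e f : ℕ} {s s' : ℝ}
    (h1 : End p e s) (h2 : End p f (1 - s)) (h1' : End q e s') (h2' : End q f (1 - s'))
    (hs : 0 ≤ s) (hs1 : s ≤ 1) (hs' : 0 ≤ s') (hs1' : s' ≤ 1) :
    cdist A p q ≤ ENNReal.ofReal 1 := by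
  by_cases h : s + s' ≤ 1
  · refine (cdist_le_end h1 h1').trans ?_
    rw [route, SimpleGraph.edist_self, ENat.toENNReal_zero, add_zero,
      ← ENNReal.ofReal_add hs hs']
    exact ENNReal.ofReal_le_ofReal h
  · push Not at h
    refine (cdist_le_end h2 h2').trans ?_
    rw [route, SimpleGraph.edist_self, ENat.toENNReal_zero, add_zero,
      ← ENNReal.ofReal_add (by linarith) (by linarith)]
    exact ENNReal.ofReal_le_ofReal (by linarith)

lemma ok_rd {A : List (List ℕ)} {D' R' : ℕ} {r : ℝ} (hD : 0 < D')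
    (hr : 2 * r = ((2 * R' : ℕ) : ℝ) / (2 * D' : ℕ)) (hr2 : 1 / 2 < r) {p q : Pt}
    (hp : IsPt A p) (hq : IsPt A q) (hc : (rd (2 * D') p).2.2.1 = (rd (2 * D') q).2.2.1)
    (h : ENNReal.ofReal (2 * r) ≤ cdist A p q) :
    ok A (2 * D') (2 * R') (rd (2 * D') p) (rd (2 * D') q) = true := by
  have hD2 : 0 < 2 * D' := by omega
  obtain ⟨-, y, y0, y1, e1, e2, f1, f2, f3⟩ := rd_spec hD2 hp
  obtain ⟨-, z, z0, z1, e1', e2', f1', f2', f3'⟩ := rd_spec hD2 hq
  rw [← hc] at f1' f2' f3'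
  unfold ok
  rw [← hc]
  generalize (rd (2 * D') p).2.2.1 = j at *
  have key : ∀ {e e' : ℕ} {s s' : ℝ}, End p e s → End q e' s' →
      ENNReal.ofReal (((2 * R' : ℕ) : ℝ) / (2 * D' : ℕ)) ≤ route A e s e' s' := by
    intro e e' s s' h1 h1'
    rw [← hr]
    exact h.trans (cdist_le_end h1 h1')
  have hy : 0 ≤ 1 - y := by linarith
  have hz : 0 ≤ 1 - z := by linarith
  simp only [Bool.and_eq_true, Bool.not_eq_true']
  refine ⟨?_, ⟨?_, ?_⟩, ?_, ?_⟩
  · rw [Bool.eq_false_iff]
    intro hs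
    simp only [same, Bool.or_eq_true, Bool.and_eq_true, decide_eq_true_eq] at hs
    have h1 : cdist A p q ≤ ENNReal.ofReal 1 := by
      rcases hs with ⟨h1, h2⟩ | ⟨h1, h2⟩
      · rw [h1] at e1
        rw [h2] at e2
        exact same_le e1 e2 e1' e2' y0 y1 z0 z1
      · rw [h1] at e1
        rw [h2] at e2
        refine same_le (s' := 1 - z) e1 e2 e2' ?_ y0 y1 hz (by linarith)
        rw [sub_sub_cancel]
        exact e1'
    have h2 := h.trans h1
    rw [ENNReal.ofReal_le_ofReal_iff (by norm_num)] at h2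
    linarith
  · refine rt_of hD2 y0 z0 (key e1 e1') ?_
    intro n hn
    push_cast at hn f2 f2'
    have h1 : (2 * R' : ℝ) < 2 * (j + 1 + D' * n) := by linarith
    have h2 : (R' : ℝ) < j + 1 + D' * n := by linarith
    have h3 : R' < j + 1 + D' * n := by exact_mod_cast h2
    have h4 : 2 * D' * n = 2 * (D' * n) := by ring
    omega
  · refine rt_of hD2 y0 hz (key e1 e2') ?_
    intro n hn
    push_cast at hn f1 f2 f1' f2'
    have h2 : (2 * R' : ℝ) < 2 * D' + 1 + 2 * (D' * n) := by linarith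
    have h3 : 2 * R' < 2 * D' + 1 + 2 * (D' * n) := by exact_mod_cast h2
    have h4 : 2 * D' * n = 2 * (D' * n) := by ring
    omega
  · refine rt_of hD2 hy z0 (key e2 e1') ?_
    intro n hn
    push_cast at hn f1 f2 f1' f2'
    have h2 : (2 * R' : ℝ) < 2 * D' + 1 + 2 * (D' * n) := by linarith
    have h3 : 2 * R' < 2 * D' + 1 + 2 * (D' * n) := by exact_mod_cast h2
    have h4 : 2 * D' * n = 2 * (D' * n) := by ring
    omega
  · refine rt_of hD2 hy hz (key e2 e2') ?_
    intro n hn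
    push_cast at hn f1 f1'
    have h2 : (2 * R' : ℝ) + j + j ≤ 2 * D' + 2 * D' + 2 * (D' * n) := by linarith
    have h3 : 2 * R' + j + j ≤ 2 * D' + 2 * D' + 2 * (D' * n) := by exact_mod_cast h2
    have h4 : 2 * D' * n = 2 * (D' * n) := by ring
    omega

/-- A list is not much longer than the largest of its classes. -/
lemma length_le_mul {β : Type} (f : β → ℕ) (K M : ℕ) (l : List β) (hf : ∀ x ∈ l, f x < K)
    (hM : ∀ i < K, (l.filter fun x => decide (f x = i)).length ≤ M) : l.length ≤ K * M := by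
  have h1 : ∀ l : List β, (∀ x ∈ l, f x < K) →
      l.length ≤ ∑ i ∈ Finset.range K, (l.filter fun x => decide (f x = i)).length := by
    intro l
    induction l with
    | nil => simp
    | cons a l ih =>
      intro h
      have h2 := ih fun x hx => h x (List.mem_cons_of_mem _ hx)
      have h3 : ∀ i, ((a :: l).filter fun x => decide (f x = i)).length =
          (l.filter fun x => decide (f x = i)).length + if f a = i then 1 else 0 := by
        intro i
        rw [List.filter_cons]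
        split_ifs <;> simp_all
      simp only [h3, Finset.sum_add_distrib, Finset.sum_ite_eq, Finset.mem_range,
        if_pos (h a List.mem_cons_self), List.length_cons]
      omega
  calc l.length ≤ _ := h1 l hf
    _ ≤ ∑ i ∈ Finset.range K, M := Finset.sum_le_sum fun i hi => hM i (Finset.mem_range.1 hi)
    _ = K * M := by simp

lemma rd_chk {A : List (List ℕ)} {D' R' : ℕ} {r : ℝ} (hD : 0 < D')
    (hr : 2 * r = ((2 * R' : ℕ) : ℝ) / (2 * D' : ℕ)) (hr2 : 1 / 2 < r) {I : List Pt}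
    (hI : RIndep A r I) (i : ℕ) : chk (2 * D') (2 * R')
      (A, (I.filter fun p => decide ((rd (2 * D') p).2.2.1 = i)).map (rd (2 * D'))) = true := by
  rw [chk_iff]
  constructor
  · intro o ho
    obtain ⟨p, hp, rfl⟩ := List.mem_map.1 ho
    exact (rd_spec (by omega) (hI.1 p (List.mem_of_mem_filter hp))).1
  · rw [List.pairwise_map]
    refine (hI.2.filter _).imp_of_mem ?_
    intro p q hp hq hpq
    rw [List.mem_filter, decide_eq_true_eq] at hp hq
    exact ok_rd hD hr hr2 (hI.1 p hp.1) (hI.1 q hq.1) (hp.2.trans hq.2.symm) hpq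

/-! ### Polynomial time -/

variable {α : Type} [TEnc α]

theorem poly_near (k : ℕ) : Poly (fun p : (List (List ℕ) × ℕ) × ℕ => near p.1.1 k p.1.2 p.2) := by
  induction k with
  | zero =>
    unfold near
    exact Poly.decide_eq (Poly.snd (Poly.fst Poly.id)) (Poly.snd Poly.id)
  | succ k ih =>
    unfold near
    refine Poly.or ih ?_
    refine Poly.any (p := fun (p : (List (List ℕ) × ℕ) × ℕ) z =>
      adj p.1.1 p.1.2 z && near p.1.1 k z p.2)
      (UPoly.length (Poly.fst (Poly.fst Poly.id))).range ?_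
    refine Poly.and ?_ ?_
    · exact p_adj (Poly.fst (Poly.fst (Poly.fst Poly.id))) (Poly.snd (Poly.fst (Poly.fst Poly.id)))
        (Poly.snd Poly.id)
    · exact ih.comp (Poly.pair (Poly.pair (Poly.fst (Poly.fst (Poly.fst Poly.id)))
        (Poly.snd Poly.id)) (Poly.snd (Poly.fst Poly.id)))

theorem poly_all_const {ι : Type} (l : List ι) {f : ι → α → Bool} (hf : ∀ i, Poly (f i)) :
    Poly (fun a => l.all fun i => f i a) := by
  induction l with
  | nil => simpa using (NPC.Poly.const (α := α) true)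
  | cons i l ih =>
    simp only [List.all_cons]
    exact Poly.and (hf i) ih

theorem poly_rt (D R : ℕ) {A : α → List (List ℕ)} {a s b t : α → ℕ} (hA : Poly A) (ha : Poly a)
    (hs : Poly s) (hb : Poly b) (ht : Poly t) :
    Poly (fun x => rt (A x) D R (a x) (s x) (b x) (t x)) := by
  unfold rt
  refine poly_all_const (List.range (R + 1)) (f := fun k x =>
    !decide (s x + t x + D * k < R) || !near (A x) k (a x) (b x)) ?_
  intro k
  refine Poly.or (Poly.not ?_) (Poly.not ?_)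
  · exact Poly.decide_lt (Poly.add (Poly.add hs ht) (NPC.Poly.const (D * k))) (NPC.Poly.const R)
  · exact (poly_near k).comp (Poly.pair (Poly.pair hA ha) hb)

theorem poly_chk (D R : ℕ) : Poly (chk D R) := by
  unfold chk
  refine Poly.and ?_ ?_
  · refine Poly.all (p := fun (x : List (List ℕ) × List (ℕ × ℕ × ℕ × ℕ)) o => vld x.1 D o)
      (Poly.snd Poly.id) ?_
    unfold vld
    fun_prop
  · have hz : Poly (fun x : List (List ℕ) × List (ℕ × ℕ × ℕ × ℕ) => x.2.zipIdx) := by fun_prop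
    refine Poly.all (p := fun (x : List (List ℕ) × List (ℕ × ℕ × ℕ × ℕ)) p =>
      x.2.zipIdx.all (fun q => decide (q.2 ≤ p.2) || ok x.1 D R p.1 q.1)) hz ?_
    refine Poly.all (p := fun (y : (List (List ℕ) × List (ℕ × ℕ × ℕ × ℕ)) ×
      ((ℕ × ℕ × ℕ × ℕ) × ℕ)) q => decide (q.2 ≤ y.2.2) || ok y.1.1 D R y.2.1 q.1)
      (hz.comp (Poly.fst Poly.id)) ?_
    refine Poly.or (by fun_prop) ?_
    unfold ok
    refine Poly.and ?_ (Poly.and (Poly.and ?_ ?_) (Poly.and ?_ ?_))
    · unfold same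
      fun_prop
    all_goals
      refine poly_rt D R ?_ ?_ ?_ ?_ ?_ <;> fun_prop

lemma sz_nat_le' (n : ℕ) : sz n ≤ 4 * n + 1 := by
  have h1 := sz_nat_le n
  have h2 : n.size ≤ n := Nat.size_le.2 Nat.lt_two_pow_self
  omega

lemma chk_length {A : List (List ℕ)} {D R : ℕ} {r : ℝ} (hD : 0 < D)
    (hr : 2 * r = (R : ℝ) / D) (hr2 : 1 / 2 < r) {O : List (ℕ × ℕ × ℕ × ℕ)}
    (h : chk D R (A, O) = true) : O.length ≤ A.length := by
  have h1 := rindep_length hr2 (chk_rindep hD hr h).2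
  rwa [List.length_map] at h1

lemma chk_sz {A : List (List ℕ)} {D R : ℕ} {r : ℝ} (hD : 0 < D)
    (hr : 2 * r = (R : ℝ) / D) (hr2 : 1 / 2 < r) {O : List (ℕ × ℕ × ℕ × ℕ)}
    (h : chk D R (A, O) = true) : sz O ≤ sz A * (8 * sz A + 8 * D + 8) + 1 := by
  have h1 := chk_length hD hr hr2 h
  have h5 := length_lt_sz A
  have h2 : ∀ o ∈ O, sz o ≤ 8 * sz A + 8 * D + 7 := by
    intro o ho
    have h3 := (vld_iff A D o).1 (((chk_iff A D R O).1 h).1 o ho)
    obtain ⟨e1, e2, e3⟩ := h3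
    have h4 : o.1 < A.length ∧ o.2.1 < A.length := by
      rcases e3 with e3 | ⟨e3, e4, -⟩
      · exact ⟨e3.2.1, e3.2.2.1⟩
      · exact ⟨e4, e3 ▸ e4⟩
    have i1 := sz_nat_le' o.1
    have i2 := sz_nat_le' o.2.1
    have i3 := sz_nat_le' o.2.2.1
    have i4 := sz_nat_le' o.2.2.2
    have i5 : sz o = sz o.1 + (sz o.2.1 + (sz o.2.2.1 + sz o.2.2.2 + 1) + 1) + 1 := by
      obtain ⟨a, b, c, d⟩ := o
      simp only [sz_pair]
    omega
  have h3 := sz_le_length_mul O _ h2
  have h6 : O.length * (8 * sz A + 8 * D + 7 + 1) ≤ sz A * (8 * sz A + 8 * D + 7 + 1) :=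
    Nat.mul_le_mul_right _ (by omega)
  calc sz O ≤ _ := h3
    _ ≤ _ := Nat.add_le_add_right h6 1

/-- If `P = NP` then, for every rational `r > 1 / 2`, the maximum `r`-independent set problem has
a polynomial-time constant-factor approximation algorithm. -/
theorem rapprox_of_collapse (H : ∀ L : Set (List Bool), InNP L → InP L) {r : ℚ}
    (hr : 1 / 2 < r) : ∃ c : ℝ, 0 < c ∧ RApprox (fun _ => True) r c := by
  -- `r = R' / (2 * D')`
  obtain ⟨D', R', hD, hrR⟩ : ∃ D' R' : ℕ, 0 < D' ∧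
      2 * (r : ℝ) = ((2 * R' : ℕ) : ℝ) / (2 * D' : ℕ) := by
    refine ⟨r.den, 2 * r.num.toNat, r.den_pos, ?_⟩
    have h1 : 0 < r := by linarith
    have h2 : 0 < r.num := Rat.num_pos.2 h1
    have h3 : ((r.num.toNat : ℕ) : ℝ) = (r.num : ℝ) := by
      have : ((r.num.toNat : ℕ) : ℤ) = r.num := Int.toNat_of_nonneg h2.le
      exact_mod_cast this
    have h4 : (r : ℝ) = (r.num : ℝ) / (r.den : ℝ) := by exact_mod_cast (Rat.num_div_den r).symm
    have h5 : (r.den : ℝ) ≠ 0 := by exact_mod_cast r.den_nz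
    rw [h4]
    push_cast
    rw [h3]
    field_simp
  have hr2 : (1 : ℝ) / 2 < r := by
    have : ((1 / 2 : ℚ) : ℝ) < r := by exact_mod_cast hr
    simpa using this
  have hD2 : 0 < 2 * D' := by omega
  obtain ⟨F, hF, hFs⟩ := exists_best (α := List (List ℕ)) (β := ℕ × ℕ × ℕ × ℕ) H
    (poly_chk (2 * D') (2 * R')) (N := fun A => A.length) (UPoly.length Poly.id)
    (fun A S h => chk_length hD2 hrR hr2 h)
    (Polynomial.X * (8 * Polynomial.X + Polynomial.C (8 * (2 * D') + 8)) + 1)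
    (fun A S h => by
      have := chk_sz hD2 hrR hr2 h
      simp only [Polynomial.eval_add, Polynomial.eval_mul, Polynomial.eval_X,
        Polynomial.eval_one, Polynomial.eval_C, Polynomial.eval_ofNat]
      rw [show 8 * sz A + (8 * (2 * D') + 8) = 8 * sz A + 8 * (2 * D') + 8 by ring]
      exact this)
  have h : Poly (fun x : List Bool => (unbits (List (List ℕ)) x).map (fun A => F A)) :=
    Poly.optMap poly_unbits (hF.comp (Poly.snd Poly.id))
  refine ⟨1 / (2 * D' + 1 : ℕ), by positivity, _, polyTime_opt h, fun A _ => ⟨F A, ?_, ?_⟩⟩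
  · simp only [unbits_bits, Option.map_some]
  · have hnil : chk (2 * D') (2 * R') (A, []) = true := by
      rw [chk_iff]
      exact ⟨by simp, List.Pairwise.nil⟩
    obtain ⟨h1, h2⟩ := hFs A ⟨[], hnil⟩
    obtain ⟨h3, h4⟩ := chk_rindep hD2 hrR h1
    refine ⟨h3, h4, fun I hI => ?_⟩
    have h5 : I.length ≤ (2 * D' + 1) * (F A).length := by
      refine length_le_mul (fun p => (rd (2 * D') p).2.2.1) _ _ I ?_ ?_
      · intro p hp
        obtain ⟨-, y, -, -, -, -, -, -, h6⟩ := rd_spec hD2 (hI.1 p hp)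
        exact Nat.lt_succ_of_le h6
      · intro i _
        have h6 := h2 _ (rd_chk hD hrR hr2 hI i)
        rwa [List.length_map] at h6
    have h6 : (I.length : ℝ) ≤ ((2 * D' + 1 : ℕ) : ℝ) * (F A).length := by exact_mod_cast h5
    rw [one_div, inv_mul_le_iff₀ (by positivity)]
    exact h6

end Pool.Agent.TH688.RInd
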