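import Pool.Agent.TH688.RIndDisc

set_option autoImplicit false

/-!
# `r`-independent sets in continuous graphs: `r ≤ 1 / 2`
-/

namespace Pool.Agent.TH688.RInd

open Pool.Agent.NPC Pool.Agent.H688R2.RInd Pool.Agent.TH688.Mis
open scoped ENNReal

/-- the edges -/
def edg (A : List (List ℕ)) : List (ℕ × ℕ) := (prs A).filter fun e => decide (e.1 < e.2)

/-- the isolated vertices -/
def iso (A : List (List ℕ)) : List ℕ :=
  (List.range A.length).filter fun u => !(List.range A.length).any fun v => adj A u v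

/-- the midpoints of the edges, and the isolated vertices -/
def mid (A : List (List ℕ)) : List (ℕ × ℕ × ℕ × ℕ) :=
  (edg A).map (fun e => (e.1, e.2, 1, 2)) ++ (iso A).map (fun u => (u, u, 0, 1))

lemma mem_edg (A : List (List ℕ)) (e : ℕ × ℕ) : e ∈ edg A ↔ (gr A).Adj e.1 e.2 ∧ e.1 < e.2 := by
  unfold edg
  rw [List.mem_filter, decide_eq_true_eq]
  exact and_congr (mem_prs A e.1 e.2) Iff.rfl

lemma mem_iso (A : List (List ℕ)) (u : ℕ) : u ∈ iso A ↔
    u < A.length ∧ ∀ v, ¬ (gr A).Adj u v := by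
  unfold iso
  simp only [List.mem_filter, List.mem_range, Bool.not_eq_true', List.any_eq_false, adj_iff]
  refine and_congr Iff.rfl ⟨fun h v hv => h v hv.2.2.1 hv, fun h v _ => h v⟩

lemma prs_nodup (A : List (List ℕ)) : (prs A).Nodup := by
  unfold prs
  rw [List.nodup_flatMap]
  constructor
  · intro u _
    exact (List.nodup_range.filter _).map fun a b h => (Prod.mk.inj h).2
  · refine List.nodup_range.imp ?_
    intro u v huv
    rw [Function.onFun, List.disjoint_left]
    intro p hp hq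
    obtain ⟨a, _, rfl⟩ := List.mem_map.1 hp
    obtain ⟨b, _, hb⟩ := List.mem_map.1 hq
    exact huv (Prod.mk.inj hb).1.symm

lemma one_le_cdist {A : List (List ℕ)} {p q : Pt} (h1 : p.u ≠ q.u) (h2 : p.u ≠ q.v)
    (h3 : p.v ≠ q.u) (h4 : p.v ≠ q.v) : 1 ≤ cdist A p q := by
  have key : ∀ a b : ℕ, a ≠ b → ∀ s t : ℝ, (1 : ℝ≥0∞) ≤ route A a s b t := by
    intro a b hab s t
    rw [route]
    exact (one_le_edist hab).trans (le_add_right (le_add_left le_rfl))
  refine le_min ?_ (le_min (le_min (key _ _ h1 _ _) (key _ _ h2 _ _))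
    (le_min (key _ _ h3 _ _) (key _ _ h4 _ _)))
  have : direct p q = ⊤ := by
    unfold direct
    rw [if_neg (fun h => h1 h.1), if_neg (fun h => h2 h.1)]
  rw [this]
  exact le_top

lemma one_le_cdist_mid {A : List (List ℕ)} {e f : ℕ × ℕ} (he : e.1 < e.2) (hf : f.1 < f.2)
    (h : e ≠ f) : 1 ≤ cdist A (ofOut (e.1, e.2, 1, 2)) (ofOut (f.1, f.2, 1, 2)) := by
  have key : ∀ a b : ℕ, ∀ s t : ℝ, 1 / 2 ≤ s → 1 / 2 ≤ t → (1 : ℝ≥0∞) ≤ route A a s b t := by
    intro a b s t hs ht
    rw [route]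
    have half : (ENNReal.ofReal (1 / 2) + ENNReal.ofReal (1 / 2) : ℝ≥0∞) = 1 := by
      rw [← ENNReal.ofReal_add (by norm_num) (by norm_num)]
      norm_num
    rw [← half]
    refine add_le_add ?_ (ENNReal.ofReal_le_ofReal ht)
    exact (ENNReal.ofReal_le_ofReal hs).trans (le_add_right le_rfl)
  have h0 : (1 : ℝ) / 2 ≤ ((1 : ℕ) : ℝ) / ((2 : ℕ) : ℝ) := by norm_num
  have h1 : (1 : ℝ) / 2 ≤ 1 - ((1 : ℕ) : ℝ) / ((2 : ℕ) : ℝ) := by norm_num
  refine le_min ?_ (le_min (le_min (key _ _ _ _ h0 h0) (key _ _ _ _ h0 h1))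
    (le_min (key _ _ _ _ h1 h0) (key _ _ _ _ h1 h1)))
  have : direct (ofOut (e.1, e.2, 1, 2)) (ofOut (f.1, f.2, 1, 2)) = ⊤ := by
    unfold direct
    rw [if_neg (fun h' => h (Prod.ext h'.1 h'.2)), if_neg]
    rintro ⟨h1, h2⟩
    simp only [ofOut] at h1 h2
    omega
  rw [this]
  exact le_top

lemma mid_rindep {A : List (List ℕ)} {r : ℝ} (hr : r ≤ 1 / 2) :
    (∀ o ∈ mid A, o.2.2.2 ≠ 0) ∧ RIndep A r ((mid A).map ofOut) := by
  have h2r : ENNReal.ofReal (2 * r) ≤ 1 := by
    rw [← ENNReal.ofReal_one]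
    exact ENNReal.ofReal_le_ofReal (by linarith)
  refine ⟨?_, ?_, ?_⟩
  · intro o ho
    unfold mid at ho
    rw [List.mem_append] at ho
    rcases ho with ho | ho
    · obtain ⟨e, -, rfl⟩ := List.mem_map.1 ho
      simp
    · obtain ⟨e, -, rfl⟩ := List.mem_map.1 ho
      simp
  · intro p hp
    obtain ⟨o, ho, rfl⟩ := List.mem_map.1 hp
    unfold mid at ho
    rw [List.mem_append] at ho
    rcases ho with ho | ho
    · obtain ⟨e, he, rfl⟩ := List.mem_map.1 ho
      left
      refine ⟨((mem_edg A e).1 he).1, ?_, ?_⟩ <;> simp only [ofOut] <;> norm_num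
    · obtain ⟨u, hu, rfl⟩ := List.mem_map.1 ho
      right
      exact ⟨rfl, ((mem_iso A u).1 hu).1, by simp [ofOut]⟩
  · unfold mid
    rw [List.pairwise_map, List.pairwise_append, List.pairwise_map, List.pairwise_map]
    refine ⟨?_, ?_, ?_⟩
    · refine ((prs_nodup A).filter _).imp_of_mem ?_
      intro e f he hf hef
      exact h2r.trans (one_le_cdist_mid ((mem_edg A e).1 he).2 ((mem_edg A f).1 hf).2 hef)
    · refine (List.nodup_range.filter _).imp ?_
      intro u v huv
      exact h2r.trans (one_le_cdist huv huv huv huv)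
    · intro a ha b hb
      obtain ⟨e, he, rfl⟩ := List.mem_map.1 ha
      obtain ⟨u, hu, rfl⟩ := List.mem_map.1 hb
      rw [mem_edg] at he
      rw [mem_iso] at hu
      have h1 : e.1 ≠ u := by
        rintro rfl
        exact hu.2 _ he.1
      have h2 : e.2 ≠ u := by
        rintro rfl
        exact hu.2 _ he.1.symm
      exact h2r.trans (one_le_cdist h1 h1 h2 h2)

/-! ### The bound -/

/-- the edge, or the isolated vertex, of a point -/
noncomputable def key (A : List (List ℕ)) (p : Pt) : (ℕ × ℕ) ⊕ ℕ :=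
  open Classical in
  if p.u = p.v then
    if h : ∃ v, (gr A).Adj p.u v then Sum.inl (min p.u h.choose, max p.u h.choose)
    else Sum.inr p.u
  else Sum.inl (min p.u p.v, max p.u p.v)

/-- the class of a point -/
noncomputable def cls (A : List (List ℕ)) (D : ℕ) (p : Pt) : ℕ :=
  open Classical in
  if p.u = p.v then
    if h : ∃ v, (gr A).Adj p.u v then (if p.u < h.choose then D + 1 else D + 2)
    else 0
  else if p.u < p.v then ⌊(D : ℝ) * p.x⌋₊ else ⌊(D : ℝ) * (1 - p.x)⌋₊

lemma cls_lt {A : List (List ℕ)} {D : ℕ} {p : Pt} (hp : IsPt A p) : cls A D p < D + 3 := by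
  have hfl : ∀ y : ℝ, 0 ≤ y → y ≤ 1 → ⌊(D : ℝ) * y⌋₊ ≤ D := by
    intro y h0 hy
    refine Nat.floor_le_of_le ?_
    have hD' : (0 : ℝ) ≤ D := by positivity
    nlinarith
  unfold cls
  rcases hp with ⟨h1, h2, h3⟩ | ⟨h1, h2, h3⟩
  · rw [if_neg h1.ne]
    split_ifs
    · have := hfl p.x h2 h3
      omega
    · have := hfl (1 - p.x) (by linarith) (by linarith)
      omega
  · rw [if_pos h1]
    split_ifs <;> omega

lemma key_mem {A : List (List ℕ)} {p : Pt} (hp : IsPt A p) :
    key A p ∈ (edg A).map Sum.inl ++ (iso A).map Sum.inr := by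
  have hmm : ∀ a b : ℕ, (gr A).Adj a b → (min a b, max a b) ∈ edg A := by
    intro a b hab
    rw [mem_edg]
    rcases lt_or_gt_of_ne hab.ne with h | h
    · rw [min_eq_left h.le, max_eq_right h.le]
      exact ⟨hab, h⟩
    · rw [min_eq_right h.le, max_eq_left h.le]
      exact ⟨hab.symm, h⟩
  unfold key
  rw [List.mem_append, List.mem_map, List.mem_map]
  rcases hp with ⟨h1, h2, h3⟩ | ⟨h1, h2, h3⟩
  · rw [if_neg h1.ne]
    exact Or.inl ⟨_, hmm _ _ h1, rfl⟩
  · rw [if_pos h1]
    split_ifs with h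
    · exact Or.inl ⟨_, hmm _ _ h.choose_spec, rfl⟩
    · right
      refine ⟨p.u, (mem_iso A p.u).2 ⟨h2, fun v hv => h ⟨v, hv⟩⟩, rfl⟩

lemma direct_le {A : List (List ℕ)} {p q : Pt} : cdist A p q ≤ direct p q := min_le_left _ _

lemma close {A : List (List ℕ)} {D : ℕ} (hD : 0 < D) {p q : Pt} (hp : IsPt A p) (hq : IsPt A q)
    (hk : key A p = key A q) (hc : cls A D p = cls A D q) :
    cdist A p q < ENNReal.ofReal (1 / D) := by
  have hD' : (0 : ℝ) < D := by exact_mod_cast hD
  have hpos : (0 : ℝ≥0∞) < ENNReal.ofReal (1 / D) := by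
    rw [ENNReal.ofReal_pos]
    positivity
  have hfl : ∀ y : ℝ, 0 ≤ y → y ≤ 1 → ⌊(D : ℝ) * y⌋₊ ≤ D := by
    intro y h0 hy
    refine Nat.floor_le_of_le ?_
    nlinarith
  -- equal vertices
  have hvv : p.u = p.v → p.x = 0 → q.x = 0 → p.u = q.u →
      cdist A p q < ENNReal.ofReal (1 / D) := by
    intro _ h1 h2 h3
    refine lt_of_le_of_lt (cdist_le_end (e := p.u) (s := 0) (e' := p.u) (s' := 0)
      (Or.inl ⟨rfl, h1.symm⟩) (Or.inl ⟨h3, h2.symm⟩)) ?_
    rw [route, SimpleGraph.edist_self]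
    simpa using hpos
  -- close coordinates
  have hcl : ∀ y z : ℝ, 0 ≤ y → 0 ≤ z → ⌊(D : ℝ) * y⌋₊ = ⌊(D : ℝ) * z⌋₊ → |y - z| < 1 / D := by
    intro y z hy hz h
    have a1 := Nat.floor_le (show 0 ≤ (D : ℝ) * y by positivity)
    have a2 := Nat.lt_floor_add_one ((D : ℝ) * y)
    have b1 := Nat.floor_le (show 0 ≤ (D : ℝ) * z by positivity)
    have b2 := Nat.lt_floor_add_one ((D : ℝ) * z)
    rw [h] at a1 a2
    rw [abs_lt, lt_div_iff₀ hD', neg_lt, lt_div_iff₀ hD']
    constructor <;> nlinarith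
  rcases hp with ⟨h1, h2, h3⟩ | ⟨h1, h2, h3⟩ <;> rcases hq with ⟨h1', h2', h3'⟩ | ⟨h1', h2', h3'⟩
  · unfold key at hk
    unfold cls at hc
    rw [if_neg h1.ne, if_neg h1'.ne] at hk hc
    rw [Sum.inl.injEq, Prod.mk.injEq] at hk
    refine lt_of_le_of_lt direct_le ?_
    rcases lt_or_gt_of_ne h1.ne with h | h <;> rcases lt_or_gt_of_ne h1'.ne with h' | h'
    · rw [if_pos h, if_pos h'] at hc
      have e1 : p.u = q.u ∧ p.v = q.v := by omega
      rw [direct, if_pos e1]
      exact (ENNReal.ofReal_lt_ofReal_iff (by positivity)).2 (hcl _ _ h2 h2' hc)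
    · rw [if_pos h, if_neg (by omega)] at hc
      have e1 : p.u = q.v ∧ p.v = q.u := by omega
      have e2 : ¬ (p.u = q.u ∧ p.v = q.v) := by omega
      rw [direct, if_neg e2, if_pos e1]
      exact (ENNReal.ofReal_lt_ofReal_iff (by positivity)).2
        (hcl _ _ h2 (by linarith) hc)
    · rw [if_neg (by omega), if_pos h'] at hc
      have e1 : p.u = q.v ∧ p.v = q.u := by omega
      have e2 : ¬ (p.u = q.u ∧ p.v = q.v) := by omega
      rw [direct, if_neg e2, if_pos e1]
      have := hcl _ _ (by linarith) h2' hc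
      rw [show 1 - p.x - q.x = -(p.x - (1 - q.x)) by ring, abs_neg] at this
      exact (ENNReal.ofReal_lt_ofReal_iff (by positivity)).2 this
    · rw [if_neg (by omega), if_neg (by omega)] at hc
      have e1 : p.u = q.u ∧ p.v = q.v := by omega
      rw [direct, if_pos e1]
      have := hcl _ _ (by linarith) (by linarith) hc
      rw [show 1 - p.x - (1 - q.x) = -(p.x - q.x) by ring, abs_neg] at this
      exact (ENNReal.ofReal_lt_ofReal_iff (by positivity)).2 this
  · exfalso
    have a1 : cls A D p ≤ D := by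
      unfold cls
      rw [if_neg h1.ne]
      split_ifs
      · exact hfl _ h2 h3
      · exact hfl _ (by linarith) (by linarith)
    unfold key at hk
    unfold cls at hc a1
    rw [if_neg h1.ne, if_pos h1'] at hk
    rw [if_neg h1.ne] at hc a1
    rw [if_pos h1'] at hc
    split_ifs at hk with h
    rw [dif_pos h] at hc
    rw [hc] at a1
    split_ifs at a1 <;> omega
  · exfalso
    have a1 : cls A D q ≤ D := by
      unfold cls
      rw [if_neg h1'.ne]
      split_ifs
      · exact hfl _ h2' h3'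
      · exact hfl _ (by linarith) (by linarith)
    unfold key at hk
    unfold cls at hc a1
    rw [if_neg h1'.ne, if_pos h1] at hk
    rw [if_neg h1'.ne] at hc a1
    rw [if_pos h1] at hc
    split_ifs at hk with h
    rw [dif_pos h] at hc
    rw [← hc] at a1
    split_ifs at a1 <;> omega
  · refine hvv h1 h3 h3' ?_
    unfold key at hk
    unfold cls at hc
    rw [if_pos h1, if_pos h1'] at hk hc
    by_cases h : ∃ v, (gr A).Adj p.u v <;> by_cases h' : ∃ v, (gr A).Adj q.u v
    · rw [dif_pos h, dif_pos h', Sum.inl.injEq, Prod.mk.injEq] at hk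
      rw [dif_pos h, dif_pos h'] at hc
      split_ifs at hc <;> omega
    · rw [dif_pos h, dif_neg h'] at hk
      exact absurd hk (by simp)
    · rw [dif_neg h, dif_pos h'] at hk
      exact absurd hk (by simp)
    · rw [dif_neg h, dif_neg h', Sum.inr.injEq] at hk
      exact hk

lemma mid_bound {A : List (List ℕ)} {D : ℕ} (hD : 0 < D) {r : ℝ} (hr : 1 / D ≤ 2 * r)
    {I : List Pt} (hI : RIndep A r I) : I.length ≤ (D + 3) * (mid A).length := by
  refine length_le_mul (cls A D) _ _ I (fun p hp => cls_lt (hI.1 p hp)) ?_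
  intro i _
  have h1 : ((I.filter fun p => decide (cls A D p = i)).map (key A)).Nodup := by
    rw [List.Nodup, List.pairwise_map]
    refine (hI.2.filter _).imp_of_mem ?_
    intro p q hp hq hpq hk
    rw [List.mem_filter, decide_eq_true_eq] at hp hq
    have h2 := close hD (hI.1 p hp.1) (hI.1 q hq.1) hk (hp.2.trans hq.2.symm)
    have h3 := lt_of_le_of_lt hpq h2
    exact absurd (ENNReal.ofReal_le_ofReal hr) (not_le.2 h3)
  have h2 : ((I.filter fun p => decide (cls A D p = i)).map (key A)) ⊆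
      (edg A).map Sum.inl ++ (iso A).map Sum.inr := by
    intro k hk
    obtain ⟨p, hp, rfl⟩ := List.mem_map.1 hk
    exact key_mem (hI.1 p (List.mem_of_mem_filter hp))
  have h3 := (h1.subperm h2).length_le
  rw [List.length_map, List.length_append, List.length_map, List.length_map] at h3
  unfold mid
  rw [List.length_append, List.length_map, List.length_map]
  exact h3

theorem poly_mid : Poly mid := by
  unfold mid
  refine Poly.append ?_ ?_
  · refine NPC.Poly.map (F := fun _ (e : ℕ × ℕ) => (e.1, e.2, 1, 2)) ?_ ?_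
    · unfold edg
      exact Poly.filter (p := fun _ (e : ℕ × ℕ) => decide (e.1 < e.2)) p_prs (by fun_prop)
    · have he : Poly (fun x : List (List ℕ) × (ℕ × ℕ) => x.2) := Poly.snd Poly.id
      exact Poly.pair (Poly.fst he) (Poly.pair (Poly.snd he) (NPC.Poly.const (1, 2)))
  · refine NPC.Poly.map (F := fun _ (u : ℕ) => (u, u, 0, 1)) ?_ ?_
    · unfold iso
      have hR : Poly (fun A : List (List ℕ) => List.range A.length) :=
        (UPoly.length Poly.id).range
      refine Poly.filter (p := fun A u => !(List.range A.length).any fun v => adj A u v) hR ?_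
      refine Poly.not ?_
      refine Poly.any (p := fun (x : List (List ℕ) × ℕ) v => adj x.1 x.2 v)
        (hR.comp (Poly.fst Poly.id)) ?_
      exact p_adj (Poly.fst (Poly.fst Poly.id)) (Poly.snd (Poly.fst Poly.id)) (Poly.snd Poly.id)
    · have he : Poly (fun x : List (List ℕ) × ℕ => x.2) := Poly.snd Poly.id
      exact Poly.pair he (Poly.pair he (NPC.Poly.const (0, 1)))

/-- For `0 < r ≤ 1 / 2` the maximum `r`-independent set problem has a polynomial-time
constant-factor approximation algorithm. -/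
theorem rapprox_mid {r : ℝ} (h0 : 0 < r) (h1 : r ≤ 1 / 2) :
    ∃ c : ℝ, 0 < c ∧ RApprox (fun _ => True) r c := by
  obtain ⟨D, hD⟩ : ∃ D : ℕ, 1 / (2 * r) < D := exists_nat_gt _
  have hD' : (0 : ℝ) < D := lt_trans (by positivity) hD
  have hD0 : 0 < D := by exact_mod_cast hD'
  have hr : 1 / (D : ℝ) ≤ 2 * r := by
    rw [div_le_iff₀ hD']
    rw [div_lt_iff₀ (by positivity)] at hD
    linarith
  have h : Poly (fun x : List Bool => (unbits (List (List ℕ)) x).map (fun A => mid A)) :=
    Poly.optMap poly_unbits (poly_mid.comp (Poly.snd Poly.id))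
  refine ⟨1 / (D + 3 : ℕ), by positivity, _, polyTime_opt h, fun A _ => ⟨mid A, ?_, ?_⟩⟩
  · simp only [unbits_bits, Option.map_some]
  · obtain ⟨h3, h4⟩ := mid_rindep (A := A) h1
    refine ⟨h3, h4, fun I hI => ?_⟩
    have h5 : (I.length : ℝ) ≤ ((D + 3 : ℕ) : ℝ) * (mid A).length := by
      exact_mod_cast mid_bound hD0 hr hI
    rw [one_div, inv_mul_le_iff₀ (by positivity)]
    exact h5

end Pool.Agent.TH688.RInd
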